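import Mathlib

set_option autoImplicit false
open Complex Filter Topology Set Metric

namespace Pool.Agent.H68.OW

noncomputable section

/-- the bump function -/
def bmp (K δ : ℝ) (z : ℂ) : ℂ :=
  (Complex.log (((1 + δ + K * δ : ℝ) : ℂ) - z) - Complex.log (((1 + δ : ℝ) : ℂ) - z))
    / ((Real.log (1 + K) : ℝ) : ℂ)

lemma logK_pos {K : ℝ} (hK : 0 < K) : 0 < Real.log (1 + K) := Real.log_pos (by linarith)

lemma re_pos1 {δ : ℝ} {z : ℂ} (hz : z.re < 1 + δ) : 0 < ((((1 + δ : ℝ) : ℂ) - z)).re := by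
  simp only [Complex.sub_re, Complex.ofReal_re]; linarith

lemma re_pos2 {K δ : ℝ} (hK : 0 < K) (hδ : 0 < δ) {z : ℂ} (hz : z.re < 1 + δ) :
    0 < ((((1 + δ + K * δ : ℝ) : ℂ) - z)).re := by
  simp only [Complex.sub_re, Complex.ofReal_re]; nlinarith [mul_pos hK hδ]

lemma ne_of_re_pos {w : ℂ} (h : 0 < w.re) : w ≠ 0 := by
  rintro rfl; simp at h

lemma mem_slit_of_re_pos {w : ℂ} (h : 0 < w.re) : w ∈ Complex.slitPlane :=
  Complex.mem_slitPlane_iff.2 (Or.inl h)

lemma hasDerivAt_bmp {K δ : ℝ} (hK : 0 < K) (hδ : 0 < δ) {z : ℂ} (hz : z.re < 1 + δ) :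
    HasDerivAt (bmp K δ) (((K * δ : ℝ) : ℂ) / ((Real.log (1 + K) : ℝ) : ℂ) /
      ((((1 + δ : ℝ) : ℂ) - z) * (((1 + δ + K * δ : ℝ) : ℂ) - z))) z := by
  have h1 := re_pos1 hz
  have h2 := re_pos2 hK hδ hz
  have hL : ((Real.log (1 + K) : ℝ) : ℂ) ≠ 0 := by
    exact_mod_cast (logK_pos hK).ne'
  have d1 : HasDerivAt (fun z : ℂ => Complex.log (((1 + δ : ℝ) : ℂ) - z))
      ((0 - 1) / (((1 + δ : ℝ) : ℂ) - z)) z :=
    ((hasDerivAt_const z _).sub (hasDerivAt_id z)).clog (mem_slit_of_re_pos h1)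
  have d2 : HasDerivAt (fun z : ℂ => Complex.log (((1 + δ + K * δ : ℝ) : ℂ) - z))
      ((0 - 1) / (((1 + δ + K * δ : ℝ) : ℂ) - z)) z :=
    ((hasDerivAt_const z _).sub (hasDerivAt_id z)).clog (mem_slit_of_re_pos h2)
  have := (d2.sub d1).div_const ((Real.log (1 + K) : ℝ) : ℂ)
  refine this.congr_deriv ?_
  have e1 := ne_of_re_pos h1
  have e2 := ne_of_re_pos h2
  have e3 : (((1 + δ + K * δ : ℝ) : ℂ)) - z = (((1 + δ : ℝ) : ℂ) - z) + ((K * δ : ℝ) : ℂ) := by
    push_cast; ring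
  rw [e3] at e2 ⊢
  generalize (((1 + δ : ℝ) : ℂ) - z) = w at e1 e2 ⊢
  generalize (((K * δ : ℝ) : ℂ)) = v at e2 ⊢
  field_simp
  ring

lemma differentiableAt_bmp {K δ : ℝ} (hK : 0 < K) (hδ : 0 < δ) {z : ℂ} (hz : z.re < 1 + δ) :
    DifferentiableAt ℂ (bmp K δ) z := (hasDerivAt_bmp hK hδ hz).differentiableAt

lemma deriv_bmp {K δ : ℝ} (hK : 0 < K) (hδ : 0 < δ) {z : ℂ} (hz : z.re < 1 + δ) :
    deriv (bmp K δ) z = ((K * δ : ℝ) : ℂ) / ((Real.log (1 + K) : ℝ) : ℂ) /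
      ((((1 + δ : ℝ) : ℂ) - z) * (((1 + δ + K * δ : ℝ) : ℂ) - z)) := (hasDerivAt_bmp hK hδ hz).deriv

/-- the model map -/
def psi (K : ℝ) (s : ℂ) : ℂ := Complex.log (1 + K * s) / ((Real.log (1 + K) : ℝ) : ℂ)

lemma bmp_eq_psi {K δ : ℝ} (hK : 0 < K) (hδ : 0 < δ) {z : ℂ} (hz : z.re < 1 + δ) :
    bmp K δ z = psi K ((δ : ℂ) / (((1 + δ : ℝ) : ℂ) - z)) := by
  have h1 := re_pos1 hz
  have h2 := re_pos2 hK hδ hz
  have e1 := ne_of_re_pos h1
  have e2 := ne_of_re_pos h2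
  unfold bmp psi
  congr 1
  have a1 := Complex.abs_arg_lt_pi_div_two_iff.2 (Or.inl h1)
  have a2 := Complex.abs_arg_lt_pi_div_two_iff.2 (Or.inl h2)
  rw [abs_lt] at a1 a2
  have hexp : Complex.exp (Complex.log (((1 + δ + K * δ : ℝ) : ℂ) - z) - Complex.log (((1 + δ : ℝ) : ℂ) - z))
      = 1 + K * ((δ : ℂ) / (((1 + δ : ℝ) : ℂ) - z)) := by
    rw [Complex.exp_sub, Complex.exp_log e2, Complex.exp_log e1]
    field_simp
    push_cast; ring
  rw [← hexp, Complex.log_exp]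
  · rw [Complex.sub_im, Complex.log_im, Complex.log_im]; linarith [a1.1, a1.2, a2.1, a2.2]
  · rw [Complex.sub_im, Complex.log_im, Complex.log_im]; linarith [a1.1, a1.2, a2.1, a2.2]

/-- coefficients of the bump function -/
def bet (K δ : ℝ) (n : ℕ) : ℝ :=
  ((if n = 0 then Real.log (1 + δ + K * δ) - Real.log (1 + δ) else 0) +
    (1 / (1 + δ) ^ n - 1 / (1 + δ + K * δ) ^ n) / n) / Real.log (1 + K)

lemma bet_nonneg {K δ : ℝ} (hK : 0 < K) (hδ : 0 < δ) (n : ℕ) : 0 ≤ bet K δ n := by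
  unfold bet
  apply div_nonneg _ (logK_pos hK).le
  have hKδ := mul_pos hK hδ
  apply add_nonneg
  · split_ifs
    · have := Real.log_le_log (by linarith : 0 < 1 + δ) (by linarith : 1 + δ ≤ 1 + δ + K * δ)
      linarith
    · exact le_refl _
  · apply div_nonneg _ (Nat.cast_nonneg n)
    have : 1 / (1 + δ + K * δ) ^ n ≤ 1 / (1 + δ) ^ n := by
      apply one_div_le_one_div_of_le (by positivity)
      exact pow_le_pow_left₀ (by linarith) (by linarith) n
    linarith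

lemma hasSum_log_aux {r : ℝ} (hr : 1 < r) {z : ℂ} (hz : ‖z‖ ≤ 1) :
    HasSum (fun n : ℕ => (-(1 / (r:ℂ) ^ n / n)) * z ^ n + (if n = 0 then ((Real.log r : ℝ) : ℂ) else 0))
      (Complex.log ((r : ℂ) - z)) := by
  have hr0 : (r : ℂ) ≠ 0 := by exact_mod_cast (by linarith : r ≠ 0)
  have hzr : ‖z / r‖ < 1 := by
    rw [norm_div, Complex.norm_real, Real.norm_eq_abs, abs_of_pos (by linarith), div_lt_one (by linarith)]
    linarith
  have h := (Complex.hasSum_taylorSeries_neg_log hzr).neg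
  have h2 : HasSum (fun n : ℕ => (if n = 0 then ((Real.log r : ℝ) : ℂ) else 0)) ((Real.log r : ℝ) : ℂ) := by
    exact hasSum_ite_eq 0 _
  have h3 := h.add h2
  have he : Complex.log ((r : ℂ) - z) = - -Complex.log (1 - z / r) + ((Real.log r : ℝ) : ℂ) := by
    have : (r : ℂ) - z = (r : ℂ) * (1 - z / r) := by field_simp
    rw [this, Complex.log_ofReal_mul (by linarith)]
    · ring
    · intro h0
      have : z / r = 1 := by linear_combination -h0
      rw [this] at hzr; simp at hzr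
  rw [he]
  have key : (fun n : ℕ => (-(1 / (r:ℂ) ^ n / n)) * z ^ n + (if n = 0 then ((Real.log r : ℝ) : ℂ) else 0))
      = fun n : ℕ => -((z / r) ^ n / n) + (if n = 0 then ((Real.log r : ℝ) : ℂ) else 0) := by
    funext n
    rw [div_pow]
    ring
  rw [key]
  exact h3

lemma hasSum_bmp {K δ : ℝ} (hK : 0 < K) (hδ : 0 < δ) {z : ℂ} (hz : ‖z‖ ≤ 1) :
    HasSum (fun n : ℕ => ((bet K δ n : ℝ) : ℂ) * z ^ n) (bmp K δ z) := by
  have hKδ := mul_pos hK hδ
  have h1 := hasSum_log_aux (r := 1 + δ) (by linarith) hz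
  have h2 := hasSum_log_aux (r := 1 + δ + K * δ) (by linarith) hz
  have h3 := (h2.sub h1).div_const ((Real.log (1 + K) : ℝ) : ℂ)
  unfold bmp
  have key : (fun n : ℕ => ((bet K δ n : ℝ) : ℂ) * z ^ n) = fun n : ℕ =>
      ((-(1 / ((1 + δ + K * δ : ℝ):ℂ) ^ n / n)) * z ^ n +
          (if n = 0 then ((Real.log (1 + δ + K * δ) : ℝ) : ℂ) else 0) -
        ((-(1 / ((1 + δ : ℝ):ℂ) ^ n / n)) * z ^ n + (if n = 0 then ((Real.log (1 + δ) : ℝ) : ℂ) else 0)))
        / ((Real.log (1 + K) : ℝ) : ℂ) := by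
    funext n
    unfold bet
    rcases Nat.eq_zero_or_pos n with rfl | hn
    · simp
    · have : n ≠ 0 := hn.ne'
      simp only [this, if_false]
      push_cast
      ring
  rw [key]
  exact h3

lemma summable_bet {K δ : ℝ} (hK : 0 < K) (hδ : 0 < δ) : Summable (bet K δ) := by
  have := (hasSum_bmp hK hδ (z := 1) (by simp)).summable
  simp only [one_pow, mul_one] at this
  exact_mod_cast this

lemma bmp_one {K δ : ℝ} (hK : 0 < K) (hδ : 0 < δ) : bmp K δ 1 = 1 := by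
  rw [bmp_eq_psi hK hδ (by simpa using hδ)]
  unfold psi
  have hδ' : (δ : ℂ) ≠ 0 := by exact_mod_cast hδ.ne'
  have : (δ : ℂ) / (((1 + δ : ℝ) : ℂ) - 1) = 1 := by
    push_cast
    rw [add_sub_cancel_left]
    exact div_self hδ'
  rw [this, mul_one]
  have h2 : (1 + (K : ℂ)) = ((1 + K : ℝ) : ℂ) := by push_cast; ring
  rw [h2, ← Complex.ofReal_log (by linarith)]
  apply div_self
  exact_mod_cast (logK_pos hK).ne'

lemma tsum_bet {K δ : ℝ} (hK : 0 < K) (hδ : 0 < δ) : HasSum (bet K δ) 1 := by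
  have h := hasSum_bmp hK hδ (z := 1) (by simp)
  rw [bmp_one hK hδ] at h
  simp only [one_pow, mul_one] at h
  rw [← Complex.ofReal_one] at h
  exact Complex.hasSum_ofReal.1 h

lemma tendsto_bmp_zero {K : ℝ} {ω : ℂ} (hω : ‖ω‖ ≤ 1) (h1 : ω ≠ 1) :
    Tendsto (fun δ : ℝ => bmp K δ ω) (𝓝[>] 0) (𝓝 0) := by
  have hre : ω.re < 1 := by
    rcases lt_or_eq_of_le ((Complex.re_le_norm ω).trans hω) with h | h
    · exact h
    · exfalso; apply h1
      have h2 : ω.re ^ 2 + ω.im ^ 2 ≤ 1 := by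
        have := Complex.sq_norm ω
        rw [Complex.normSq_apply] at this
        nlinarith [norm_nonneg ω]
      have h3 : ω.im = 0 := by nlinarith
      exact Complex.ext (by simpa using h) (by simpa using h3)
  unfold bmp
  have c1 : Tendsto (fun δ : ℝ => Complex.log (((1 + δ + K * δ : ℝ) : ℂ) - ω)) (𝓝[>] 0)
      (𝓝 (Complex.log (((1 + 0 + K * 0 : ℝ) : ℂ) - ω))) := by
    have hc : ContinuousAt (fun δ : ℝ => Complex.log (((1 + δ + K * δ : ℝ) : ℂ) - ω)) 0 := by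
      apply ContinuousAt.clog
      · fun_prop
      · apply mem_slit_of_re_pos; simp; linarith
    exact hc.tendsto.mono_left nhdsWithin_le_nhds
  have c2 : Tendsto (fun δ : ℝ => Complex.log (((1 + δ : ℝ) : ℂ) - ω)) (𝓝[>] 0)
      (𝓝 (Complex.log (((1 + 0 : ℝ) : ℂ) - ω))) := by
    have hc : ContinuousAt (fun δ : ℝ => Complex.log (((1 + δ : ℝ) : ℂ) - ω)) 0 := by
      apply ContinuousAt.clog
      · fun_prop
      · apply mem_slit_of_re_pos; simp; linarith
    exact hc.tendsto.mono_left nhdsWithin_le_nhds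
  have := (c1.sub c2).div_const ((Real.log (1 + K) : ℝ) : ℂ)
  simpa using this

lemma tendsto_bet_one {K : ℝ} :
    Tendsto (fun δ : ℝ => bet K δ 1) (𝓝[>] 0) (𝓝 0) := by
  have hc : ContinuousAt (fun δ : ℝ => (1 / (1 + δ) ^ 1 - 1 / (1 + δ + K * δ) ^ 1)) 0 := by
    apply ContinuousAt.sub
    · apply ContinuousAt.div₀ <;> first | fun_prop | simp
    · apply ContinuousAt.div₀ <;> first | fun_prop | simp
  have := (hc.tendsto.mono_left (nhdsWithin_le_nhds (s := Set.Ioi 0))).div_const (Real.log (1 + K))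
  simp only [add_zero, mul_zero, sub_self, zero_div] at this
  refine this.congr ?_
  intro δ
  unfold bet
  simp

lemma log_div_of_re_pos {a b : ℂ} (ha : 0 < a.re) (hb : 0 < b.re) :
    Complex.log (a / b) = Complex.log a - Complex.log b := by
  have e1 := ne_of_re_pos ha
  have e2 := ne_of_re_pos hb
  have a1 := Complex.abs_arg_lt_pi_div_two_iff.2 (Or.inl ha)
  have a2 := Complex.abs_arg_lt_pi_div_two_iff.2 (Or.inl hb)
  rw [abs_lt] at a1 a2
  have hexp : Complex.exp (Complex.log a - Complex.log b) = a / b := by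
    rw [Complex.exp_sub, Complex.exp_log e1, Complex.exp_log e2]
  rw [← hexp, Complex.log_exp]
  · rw [Complex.sub_im, Complex.log_im, Complex.log_im]; linarith [a1.1, a1.2, a2.1, a2.2]
  · rw [Complex.sub_im, Complex.log_im, Complex.log_im]; linarith [a1.1, a1.2, a2.1, a2.2]

def YK (K : ℝ) : ℝ := Real.sqrt (1 + K)

lemma YK_sq {K : ℝ} (hK : 0 < K) : YK K ^ 2 = 1 + K := Real.sq_sqrt (by linarith)

lemma YK_pos {K : ℝ} (hK : 0 < K) : 0 < YK K := Real.sqrt_pos.2 (by linarith)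

lemma YK_gt_one {K : ℝ} (hK : 0 < K) : 1 < YK K := by
  have := YK_sq hK
  nlinarith [YK_pos hK]

/-- the two special parameters -/
def sS (K σ : ℝ) : ℂ := 1 / (1 + (σ * YK K : ℝ) * I)

def wK (K : ℝ) : ℝ := -(psi K (sS K 1)).im

lemma one_add_sigma_ne {K σ : ℝ} : (1 + ((σ * YK K : ℝ) : ℂ) * I) ≠ 0 := by
  intro h
  have := congrArg Complex.re h
  simp at this

lemma mem_disk_re {s : ℂ} (hs : s ∈ closedBall (1/2 : ℂ) (1/2)) : 0 ≤ s.re := by
  rw [mem_closedBall, dist_eq_norm] at hs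
  have h := (Complex.abs_re_le_norm (s - 1/2)).trans hs
  rw [abs_le] at h
  have h2 : (s - 1/2).re = s.re - 1/2 := by simp
  rw [h2] at h
  linarith [h.1]

lemma one_add_re {K : ℝ} (hK : 0 < K) {s : ℂ} (hs : s ∈ closedBall (1/2 : ℂ) (1/2)) :
    1 ≤ (1 + K * s).re := by
  have := mem_disk_re hs
  simp
  positivity

lemma sub_c_norm {K : ℝ} (hK : 0 < K) {s : ℂ} (hs : s ∈ closedBall (1/2 : ℂ) (1/2)) :
    ‖(1 + K * s) - (1 + K / 2)‖ ≤ K / 2 := by
  rw [mem_closedBall, dist_eq_norm] at hs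
  have : (1 + K * s) - (1 + K / 2) = (K : ℂ) * (s - 1/2) := by ring
  rw [this, norm_mul, Complex.norm_real, Real.norm_eq_abs, abs_of_pos hK]
  nlinarith

lemma one_add_norm {K : ℝ} (hK : 0 < K) {s : ℂ} (hs : s ∈ closedBall (1/2 : ℂ) (1/2)) :
    ‖1 + K * s‖ ≤ 1 + K := by
  have h1 := sub_c_norm hK hs
  have h2 : ‖(1 + (K:ℂ) / 2)‖ = 1 + K / 2 := by
    have : (1 + (K:ℂ) / 2) = ((1 + K / 2 : ℝ) : ℂ) := by push_cast; ring
    rw [this, Complex.norm_real, Real.norm_eq_abs, abs_of_pos (by linarith)]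
  have h3 := norm_add_le ((1 + K * s) - (1 + (K:ℂ) / 2)) (1 + (K:ℂ) / 2)
  rw [sub_add_cancel] at h3
  linarith

lemma psi_re_nonneg {K : ℝ} (hK : 0 < K) {s : ℂ} (hs : s ∈ closedBall (1/2 : ℂ) (1/2)) :
    0 ≤ (psi K s).re := by
  unfold psi
  rw [Complex.div_ofReal_re, Complex.log_re]
  apply div_nonneg _ (logK_pos hK).le
  apply Real.log_nonneg
  exact (one_add_re hK hs).trans (Complex.re_le_norm _)

lemma psi_re_le {K : ℝ} (hK : 0 < K) {s : ℂ} (hs : s ∈ closedBall (1/2 : ℂ) (1/2)) :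
    (psi K s).re ≤ 1 := by
  unfold psi
  rw [Complex.div_ofReal_re, Complex.log_re, div_le_one (logK_pos hK)]
  apply Real.log_le_log
  · exact lt_of_lt_of_le one_pos ((one_add_re hK hs).trans (Complex.re_le_norm _))
  · exact one_add_norm hK hs

lemma psi_conj {K : ℝ} (hK : 0 < K) {s : ℂ} (hs : s ∈ closedBall (1/2 : ℂ) (1/2)) :
    psi K (starRingEnd ℂ s) = starRingEnd ℂ (psi K s) := by
  unfold psi
  rw [map_div₀, Complex.conj_ofReal]
  congr 1
  have h1 := one_add_re hK hs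
  have : 1 + (K:ℂ) * (starRingEnd ℂ s) = starRingEnd ℂ (1 + K * s) := by simp
  rw [this, Complex.log_conj]
  intro h
  rw [Complex.arg_eq_pi_iff] at h
  linarith [h.1]

lemma sS_inv {K σ : ℝ} : (sS K σ)⁻¹ = 1 + ((σ * YK K : ℝ) : ℂ) * I := by
  unfold sS; rw [one_div, inv_inv]

lemma sS_mem {K σ : ℝ} : sS K σ ∈ closedBall (1/2 : ℂ) (1/2) := by
  rw [mem_closedBall, dist_eq_norm]
  unfold sS
  set y := σ * YK K
  have hne : (1 + (y : ℂ) * I) ≠ 0 := one_add_sigma_ne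
  have : 1 / (1 + (y : ℂ) * I) - 1 / 2 = (1 / 2) * ((1 - (y : ℂ) * I) / (1 + (y : ℂ) * I)) := by
    field_simp; ring
  rw [this, norm_mul]
  have h2 : ‖(1 - (y : ℂ) * I)‖ = ‖(1 + (y : ℂ) * I)‖ := by
    have : (1 - (y : ℂ) * I) = starRingEnd ℂ (1 + (y : ℂ) * I) := by simp [sub_eq_add_neg]
    rw [this, Complex.norm_conj]
  rw [norm_div (1 - (y : ℂ) * I), h2, div_self (by simpa using hne)]
  simp

lemma sS_conj {K σ : ℝ} : starRingEnd ℂ (sS K σ) = sS K (-σ) := by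
  unfold sS
  simp


lemma sS_re {K σ : ℝ} (hK : 0 < K) (hσ : σ ^ 2 = 1) : (sS K σ).re = 1 / (2 + K) := by
  have hY := YK_sq hK
  unfold sS
  rw [one_div, Complex.inv_re]
  simp only [Complex.normSq_apply, Complex.add_re, Complex.one_re, Complex.mul_re, Complex.ofReal_re,
    Complex.I_re, mul_zero, Complex.ofReal_im, Complex.I_im, mul_one, sub_self, add_zero,
    Complex.add_im, Complex.one_im, Complex.mul_im, zero_add]
  congr 1
  have : σ * YK K * (σ * YK K) = σ ^ 2 * YK K ^ 2 := by ring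
  rw [this, hσ, hY]; ring

lemma sS_im {K σ : ℝ} (hK : 0 < K) (hσ : σ ^ 2 = 1) : (sS K σ).im = - (σ * YK K) / (2 + K) := by
  have hY := YK_sq hK
  unfold sS
  rw [one_div, Complex.inv_im]
  simp only [Complex.normSq_apply, Complex.add_re, Complex.one_re, Complex.mul_re, Complex.ofReal_re,
    Complex.I_re, mul_zero, Complex.ofReal_im, Complex.I_im, mul_one, sub_self, add_zero,
    Complex.add_im, Complex.one_im, Complex.mul_im, zero_add]
  congr 1
  have : σ * YK K * (σ * YK K) = σ ^ 2 * YK K ^ 2 := by ring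
  rw [this, hσ, hY]; ring

lemma w0_re {K : ℝ} (hK : 0 < K) : (1 + K * sS K 1).re = 2 * (1 + K) / (2 + K) := by
  have h := sS_re hK (σ := 1) (by norm_num)
  rw [Complex.add_re, Complex.one_re, Complex.re_ofReal_mul, h]
  field_simp; ring

lemma w0_im {K : ℝ} (hK : 0 < K) : (1 + K * sS K 1).im = - (K * YK K) / (2 + K) := by
  have h := sS_im hK (σ := 1) (by norm_num)
  rw [Complex.add_im, Complex.one_im, Complex.im_ofReal_mul, h]
  ring

lemma core_ineq {K : ℝ} (hK : 0 < K) {w : ℂ} (hw : ‖w - (1 + K / 2)‖ ≤ K / 2) :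
    0 ≤ 2 * YK K * w.im + K * w.re := by
  have hY := YK_sq hK
  have hYp := YK_pos hK
  have hc : ((1 + (K:ℂ) / 2)) = ((1 + K / 2 : ℝ) : ℂ) := by push_cast; ring
  rw [hc] at hw
  have h2 : (w.re - (1 + K / 2)) ^ 2 + w.im ^ 2 ≤ (K / 2) ^ 2 := by
    have h3 := Complex.sq_norm (w - ((1 + K / 2 : ℝ) : ℂ))
    rw [Complex.normSq_apply] at h3
    simp only [Complex.sub_re, Complex.ofReal_re, Complex.sub_im, Complex.ofReal_im, sub_zero] at h3
    nlinarith [norm_nonneg (w - ((1 + K / 2 : ℝ) : ℂ))]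
  set a := w.re - (1 + K / 2) with ha
  set b := w.im with hb
  have hwre : w.re = a + (1 + K / 2) := by rw [ha]; ring
  rw [hwre]
  -- (2Yb + K a)^2 ≤ (4Y^2+K^2)(a^2+b^2) = (K+2)^2 (a²+b²)
  have h4 : (2 * YK K * b + K * a) ^ 2 ≤ ((K + 2) * (K / 2)) ^ 2 := by
    have e1 : (2 * YK K * b + K * a) ^ 2 + (2 * YK K * a - K * b) ^ 2 = (4 * YK K ^ 2 + K ^ 2) * (a ^ 2 + b ^ 2) := by
      ring
    have e2 : 4 * YK K ^ 2 + K ^ 2 = (K + 2) ^ 2 := by rw [hY]; ring
    rw [e2] at e1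
    have e3 : (K + 2) ^ 2 * (a ^ 2 + b ^ 2) ≤ (K + 2) ^ 2 * (K / 2) ^ 2 := by
      apply mul_le_mul_of_nonneg_left h2 (by positivity)
    nlinarith [sq_nonneg (2 * YK K * a - K * b)]
  have h5 := abs_le_of_sq_le_sq h4 (by positivity)
  have h6 := (abs_le.1 h5).1
  nlinarith

lemma core_eq {K : ℝ} (hK : 0 < K) {w : ℂ} (hw : ‖w - (1 + K / 2)‖ ≤ K / 2)
    (h0 : 2 * YK K * w.im + K * w.re = 0) : w = 1 + K * sS K 1 := by
  have hY := YK_sq hK
  have hYp := YK_pos hK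
  have hc : ((1 + (K:ℂ) / 2)) = ((1 + K / 2 : ℝ) : ℂ) := by push_cast; ring
  rw [hc] at hw
  have h2 : (w.re - (1 + K / 2)) ^ 2 + w.im ^ 2 ≤ (K / 2) ^ 2 := by
    have h3 := Complex.sq_norm (w - ((1 + K / 2 : ℝ) : ℂ))
    rw [Complex.normSq_apply] at h3
    simp only [Complex.sub_re, Complex.ofReal_re, Complex.sub_im, Complex.ofReal_im, sub_zero] at h3
    nlinarith [norm_nonneg (w - ((1 + K / 2 : ℝ) : ℂ))]
  have him : w.im = - (K * w.re) / (2 * YK K) := by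
    field_simp; linarith
  have h3 : (w.re * (K + 2) - 2 * (1 + K)) ^ 2 ≤ 0 := by
    have e1 : w.im ^ 2 * (4 * (1 + K)) = K ^ 2 * w.re ^ 2 := by
      rw [him]; field_simp; rw [hY]; ring
    have e2 : (w.re * (K + 2) - 2 * (1 + K)) ^ 2
        = 4 * (1 + K) * ((w.re - (1 + K / 2)) ^ 2 + w.im ^ 2 - (K / 2) ^ 2) := by
      have : 4 * (1 + K) * ((w.re - (1 + K / 2)) ^ 2 + w.im ^ 2 - (K / 2) ^ 2)
        = 4 * (1 + K) * ((w.re - (1 + K / 2)) ^ 2 - (K / 2) ^ 2) + w.im ^ 2 * (4 * (1 + K)) := by ring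
      rw [this, e1]; ring
    rw [e2]
    nlinarith
  have h4 : w.re * (K + 2) - 2 * (1 + K) = 0 := by
    nlinarith [sq_nonneg (w.re * (K + 2) - 2 * (1 + K))]
  have h5 : w.re = 2 * (1 + K) / (2 + K) := by
    field_simp; linarith
  apply Complex.ext
  · rw [w0_re hK, h5]
  · rw [w0_im hK, him, h5]
    field_simp
    rw [hY]

lemma im_div_w0 {K : ℝ} (hK : 0 < K) (w : ℂ) :
    ∃ c : ℝ, 0 < c ∧ (w / (1 + K * sS K 1)).im = c * (2 * YK K * w.im + K * w.re) := by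
  have hYp := YK_pos hK
  have hY := YK_sq hK
  have hn : 0 < Complex.normSq (1 + K * sS K 1) := by
    rw [Complex.normSq_pos]
    intro h
    have := congrArg Complex.re h
    rw [w0_re hK] at this
    have h2 : 0 < 2 * (1 + K) / (2 + K) := by positivity
    simp at this
    rcases this with h | h <;> linarith
  refine ⟨YK K / (2 + K) / Complex.normSq (1 + K * sS K 1), by positivity, ?_⟩
  rw [Complex.div_im, w0_re hK, w0_im hK, ← hY]
  field_simp
  ring

lemma psi_im_ge {K : ℝ} (hK : 0 < K) {s : ℂ} (hs : s ∈ closedBall (1/2 : ℂ) (1/2)) :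
    -wK K ≤ (psi K s).im := by
  have hw0 : 0 < (1 + K * sS K 1).re := lt_of_lt_of_le one_pos (one_add_re hK sS_mem)
  have hw : 0 < (1 + K * s).re := lt_of_lt_of_le one_pos (one_add_re hK hs)
  obtain ⟨c, hc, hc2⟩ := im_div_w0 hK (1 + K * s)
  have h1 := core_ineq hK (sub_c_norm hK hs)
  have h2 : 0 ≤ ((1 + K * s) / (1 + K * sS K 1)).im := by rw [hc2]; positivity
  have h3 : 0 ≤ (Complex.log ((1 + K * s) / (1 + K * sS K 1))).im := by
    rw [Complex.log_im]; exact Complex.arg_nonneg_iff.2 h2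
  rw [log_div_of_re_pos hw hw0, Complex.sub_im] at h3
  unfold wK psi
  rw [neg_neg, Complex.div_ofReal_im, Complex.div_ofReal_im]
  exact div_le_div_of_nonneg_right (by linarith) (logK_pos hK).le

lemma psi_im_eq {K : ℝ} (hK : 0 < K) {s : ℂ} (hs : s ∈ closedBall (1/2 : ℂ) (1/2))
    (h : (psi K s).im ≤ -wK K) : s = sS K 1 := by
  have hw0 : 0 < (1 + K * sS K 1).re := lt_of_lt_of_le one_pos (one_add_re hK sS_mem)
  have hw : 0 < (1 + K * s).re := lt_of_lt_of_le one_pos (one_add_re hK hs)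
  obtain ⟨c, hc, hc2⟩ := im_div_w0 hK (1 + K * s)
  have h1 := core_ineq hK (sub_c_norm hK hs)
  have h2 : 0 ≤ ((1 + K * s) / (1 + K * sS K 1)).im := by rw [hc2]; positivity
  have h3 : (Complex.log ((1 + K * s) / (1 + K * sS K 1))).im ≤ 0 := by
    rw [log_div_of_re_pos hw hw0, Complex.sub_im]
    unfold wK psi at h
    rw [neg_neg, Complex.div_ofReal_im, Complex.div_ofReal_im] at h
    have := (div_le_div_iff_of_pos_right (logK_pos hK)).1 h
    linarith
  rw [Complex.log_im] at h3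
  have h4 : Complex.arg ((1 + K * s) / (1 + K * sS K 1)) = 0 :=
    le_antisymm h3 (Complex.arg_nonneg_iff.2 h2)
  rw [Complex.arg_eq_zero_iff] at h4
  have h5 : 2 * YK K * (1 + K * s).im + K * (1 + K * s).re = 0 := by
    have h6 := h4.2
    rw [hc2] at h6
    rcases mul_eq_zero.1 h6 with h7 | h7
    · exact absurd h7 hc.ne'
    · exact h7
  have h8 := core_eq hK (sub_c_norm hK hs) h5
  have hK' : (K : ℂ) ≠ 0 := by exact_mod_cast hK.ne'
  have h9 : (K : ℂ) * s = K * sS K 1 := by linear_combination h8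
  exact mul_left_cancel₀ hK' h9

lemma conj_mem {s : ℂ} (hs : s ∈ closedBall (1/2 : ℂ) (1/2)) :
    starRingEnd ℂ s ∈ closedBall (1/2 : ℂ) (1/2) := by
  rw [mem_closedBall, dist_eq_norm] at hs ⊢
  have : starRingEnd ℂ s - 1 / 2 = starRingEnd ℂ (s - 1/2) := by
    rw [map_sub, map_div₀, map_one]
    congr 2
    exact (map_ofNat (starRingEnd ℂ) 2).symm
  rw [this, Complex.norm_conj]; exact hs

/-- both sides together: `σ = ±1` -/
lemma psi_im_side {K σ : ℝ} (hK : 0 < K) (hσ : σ = 1 ∨ σ = -1) {s : ℂ}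
    (hs : s ∈ closedBall (1/2 : ℂ) (1/2)) : -wK K ≤ σ * (psi K s).im := by
  rcases hσ with rfl | rfl
  · simpa using psi_im_ge hK hs
  · have := psi_im_ge hK (conj_mem hs)
    rw [psi_conj hK hs, Complex.conj_im] at this
    linarith

lemma psi_im_side_eq {K σ : ℝ} (hK : 0 < K) (hσ : σ = 1 ∨ σ = -1) {s : ℂ}
    (hs : s ∈ closedBall (1/2 : ℂ) (1/2)) (h : σ * (psi K s).im ≤ -wK K) : s = sS K σ := by
  rcases hσ with rfl | rfl
  · exact psi_im_eq hK hs (by simpa using h)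
  · have h1 : (psi K (starRingEnd ℂ s)).im ≤ -wK K := by
      rw [psi_conj hK hs, Complex.conj_im]; linarith
    have h2 := psi_im_eq hK (conj_mem hs) h1
    have h3 := congrArg (starRingEnd ℂ) h2
    rw [Complex.conj_conj, sS_conj] at h3
    exact h3

lemma psi_im_abs {K : ℝ} (hK : 0 < K) {s : ℂ}
    (hs : s ∈ closedBall (1/2 : ℂ) (1/2)) : |(psi K s).im| ≤ wK K := by
  rw [abs_le]
  constructor
  · exact psi_im_ge hK hs
  · have := psi_im_side hK (Or.inr rfl) hs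
    linarith

lemma psi_sS_im {K σ : ℝ} (hK : 0 < K) (hσ : σ = 1 ∨ σ = -1) :
    (psi K (sS K σ)).im = - (σ * wK K) := by
  rcases hσ with rfl | rfl
  · unfold wK; ring
  · have h := psi_conj hK (sS_mem (K := K) (σ := 1))
    rw [sS_conj] at h
    rw [h, Complex.conj_im]
    unfold wK; ring

lemma psi_sS_re {K σ : ℝ} (hK : 0 < K) (hσ : σ = 1 ∨ σ = -1) :
    (psi K (sS K σ)).re = 1 / 2 := by
  have key : (psi K (sS K 1)).re = 1 / 2 := by
    unfold psi
    rw [Complex.div_ofReal_re, Complex.log_re]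
    have h1 : ‖1 + K * sS K 1‖ = YK K := by
      have hY := YK_sq hK
      have hYp := YK_pos hK
      have h3 := Complex.sq_norm (1 + K * sS K 1)
      rw [Complex.normSq_apply, w0_re hK, w0_im hK] at h3
      have h4 : ‖1 + K * sS K 1‖ ^ 2 = YK K ^ 2 := by
        rw [h3, hY]
        field_simp
        rw [hY]; ring
      exact (pow_left_inj₀ (norm_nonneg _) hYp.le two_ne_zero).1 h4
    rw [h1]
    unfold YK
    rw [Real.log_sqrt (by linarith)]
    have := (logK_pos hK).ne'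
    field_simp
  rcases hσ with rfl | rfl
  · exact key
  · have h := psi_conj hK (sS_mem (K := K) (σ := 1))
    rw [sS_conj] at h
    rw [h, Complex.conj_re, key]

lemma wK_pos {K : ℝ} (hK : 0 < K) : 0 < wK K := by
  unfold wK psi
  rw [Complex.div_ofReal_im, Complex.log_im]
  have h1 : (1 + K * sS K 1).im < 0 := by
    rw [w0_im hK]
    have := YK_pos hK
    apply div_neg_of_neg_of_pos <;> nlinarith [mul_pos hK this]
  have h2 : Complex.arg (1 + K * sS K 1) < 0 := Complex.arg_neg_iff.2 h1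
  have := logK_pos hK
  have h3 : Complex.arg (1 + K * sS K 1) / Real.log (1 + K) < 0 := div_neg_of_neg_of_pos h2 this
  linarith

lemma wK_le {K : ℝ} (hK : 0 < K) : wK K ≤ (Real.pi / 2) / Real.log (1 + K) := by
  unfold wK psi
  rw [Complex.div_ofReal_im, Complex.log_im, ← neg_div]
  apply div_le_div_of_nonneg_right _ (logK_pos hK).le
  have h1 : 0 < (1 + K * sS K 1).re := lt_of_lt_of_le one_pos (one_add_re hK sS_mem)
  have := Complex.abs_arg_lt_pi_div_two_iff.2 (Or.inl h1)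
  rw [abs_lt] at this
  linarith [this.1]

lemma exists_K {η L : ℝ} (hη : 0 < η) (hL : 0 < L) : ∃ K : ℝ, 0 < K ∧ 2 * L * wK K < η := by
  have h1 : Tendsto (fun K : ℝ => 2 * L * ((Real.pi / 2) / Real.log (1 + K))) atTop (𝓝 (2 * L * 0)) := by
    apply Tendsto.const_mul
    apply Tendsto.div_atTop tendsto_const_nhds
    exact Real.tendsto_log_atTop.comp (tendsto_atTop_add_const_left _ _ tendsto_id)
  rw [mul_zero] at h1
  have h2 := (h1.eventually (gt_mem_nhds hη)).and (eventually_gt_atTop 0)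
  obtain ⟨K, hK1, hK2⟩ := h2.exists
  refine ⟨K, hK2, lt_of_le_of_lt ?_ hK1⟩
  exact mul_le_mul_of_nonneg_left (wK_le hK2) (by linarith)

end
end Pool.Agent.H68.OW
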