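import Pool.Agent.H68.OW.OW9

set_option autoImplicit false
open Complex Filter Topology Set Metric

namespace Pool.Agent.H68.OW

noncomputable section

set_option linter.unusedSectionVars false

/-- finite trigonometric sums with mean value `M` -/
def HM (T : ℕ → ℂ) (M : ℂ) : Prop :=
  ∃ l : List (ℂ × ℂ), (∀ p ∈ l, ‖p.2‖ = 1 ∧ p.2 ≠ 1) ∧ ∀ n, T n = M + (l.map (fun p => p.1 * p.2 ^ n)).sum

lemma HM.const (M : ℂ) : HM (fun _ => M) M := ⟨[], by simp, by simp⟩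

lemma HM.add {T T' : ℕ → ℂ} {M M' : ℂ} (h : HM T M) (h' : HM T' M') : HM (fun n => T n + T' n) (M + M') := by
  obtain ⟨l, hl, hT⟩ := h
  obtain ⟨l', hl', hT'⟩ := h'
  refine ⟨l ++ l', ?_, ?_⟩
  · intro p hp
    rcases List.mem_append.1 hp with hp | hp
    · exact hl p hp
    · exact hl' p hp
  · intro n
    beta_reduce
    rw [hT n, hT' n, List.map_append, List.sum_append]; ring

lemma HM.const_mul {T : ℕ → ℂ} {M : ℂ} (h : HM T M) (a : ℂ) : HM (fun n => a * T n) (a * M) := by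
  obtain ⟨l, hl, hT⟩ := h
  refine ⟨l.map (fun p => (a * p.1, p.2)), ?_, ?_⟩
  · intro p hp
    rw [List.mem_map] at hp
    obtain ⟨p', hp', rfl⟩ := hp
    exact hl p' hp'
  · intro n
    simp only [hT n]
    rw [List.map_map, mul_add, ← List.sum_map_mul_left]
    congr 2
    apply List.map_congr_left
    intro p _
    simp only [Function.comp]
    ring

lemma exp_small_ne_one {α : ℝ} (hα : α ≠ 0) :
    ∀ᶠ δ in 𝓝[>] (0:ℝ), Complex.exp (((α * δ : ℝ) : ℂ) * I) ≠ 1 := by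
  have h1 : ∀ᶠ δ in 𝓝[>] (0:ℝ), |α * δ| < 2 * Real.pi := by
    have : Tendsto (fun δ : ℝ => |α * δ|) (𝓝[>] 0) (𝓝 |α * 0|) :=
      ((continuous_const.mul continuous_id).abs.tendsto 0).mono_left nhdsWithin_le_nhds
    rw [mul_zero, abs_zero] at this
    exact this.eventually (gt_mem_nhds (by positivity))
  have hpos : ∀ᶠ δ in 𝓝[>] (0:ℝ), 0 < δ := eventually_mem_nhdsWithin
  filter_upwards [h1, hpos] with δ h2 h3 h4
  rw [Complex.exp_eq_one_iff] at h4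
  obtain ⟨n, hn⟩ := h4
  have h5 : (((α * δ : ℝ) : ℂ)) = ((n * (2 * Real.pi) : ℝ) : ℂ) := by
    have hI := Complex.I_ne_zero
    apply mul_right_cancel₀ hI
    rw [hn]; push_cast; ring
  have h6 : α * δ = n * (2 * Real.pi) := by exact_mod_cast h5
  have hn0 : n ≠ 0 := by
    rintro rfl
    simp at h6
    rcases h6 with h | h
    · exact hα h
    · exact h3.ne' h
  rw [h6, abs_mul, abs_of_pos (by positivity : 0 < 2 * Real.pi)] at h2
  have h7 : (1:ℝ) ≤ |(n:ℝ)| := by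
    have : (1:ℤ) ≤ |n| := Int.one_le_abs hn0
    exact_mod_cast this
  nlinarith [Real.pi_pos]

lemma HM.twist {T : ℕ → ℂ} {M : ℂ} (h : HM T M) {α : ℝ} (hα : α ≠ 0) :
    ∀ᶠ δ in 𝓝[>] (0:ℝ), HM (fun n => T n * Complex.exp (((α * δ : ℝ) : ℂ) * I) ^ n) 0 := by
  obtain ⟨l, hl, hT⟩ := h
  have h1 : ∀ᶠ δ in 𝓝[>] (0:ℝ), ∀ p ∈ {p | p ∈ l}, p.2 * Complex.exp (((α * δ : ℝ) : ℂ) * I) ≠ 1 := by
    rw [Filter.eventually_all_finite (List.finite_toSet l)]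
    intro p hp
    have hc : Tendsto (fun δ : ℝ => p.2 * Complex.exp (((α * δ : ℝ) : ℂ) * I)) (𝓝[>] 0)
        (𝓝 (p.2 * Complex.exp (((α * 0 : ℝ) : ℂ) * I))) := by
      refine Tendsto.mono_left ?_ nhdsWithin_le_nhds
      apply Continuous.tendsto
      fun_prop
    have e : p.2 * Complex.exp (((α * 0 : ℝ) : ℂ) * I) = p.2 := by simp
    rw [e] at hc
    exact hc.eventually_ne (hl p hp).2
  filter_upwards [h1, exp_small_ne_one hα] with δ h2 h3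
  refine ⟨(M, Complex.exp (((α * δ : ℝ) : ℂ) * I)) :: l.map (fun p => (p.1, p.2 * Complex.exp (((α * δ : ℝ) : ℂ) * I))), ?_, ?_⟩
  · intro p hp
    rcases List.mem_cons.1 hp with rfl | hp
    · exact ⟨Complex.norm_exp_ofReal_mul_I _, h3⟩
    · rw [List.mem_map] at hp
      obtain ⟨p', hp', rfl⟩ := hp
      refine ⟨?_, h2 p' hp'⟩
      simp only [norm_mul, (hl p' hp').1, Complex.norm_exp_ofReal_mul_I, one_mul]
  · intro n
    beta_reduce
    rw [hT n, List.map_cons, List.sum_cons, List.map_map, add_mul, ← List.sum_map_mul_right, zero_add]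
    congr 2
    apply List.map_congr_left
    intro p _
    simp only [Function.comp]
    rw [mul_pow]; ring

/-- multiplier -/
def UU (θ : ℝ) (n : ℕ) : ℝ := 4 / 3 - 7 / 9 * Real.cos (2 * (n * θ)) - 1 / 9 * Real.cos (4 * (n * θ))

lemma UU_ge (θ : ℝ) (n : ℕ) : 2 * |Real.sin (n * θ)| ≤ UU θ n := by
  set x := n * θ with hx
  unfold UU
  rw [← hx]
  have e1 : Real.cos (2 * x) = 1 - 2 * |Real.sin x| ^ 2 := by
    rw [sq_abs, Real.cos_two_mul]
    nlinarith [Real.sin_sq_add_cos_sq x]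
  have e2 : Real.cos (4 * x) = 2 * Real.cos (2 * x) ^ 2 - 1 := by
    rw [← Real.cos_two_mul]; congr 1; ring
  rw [e2, e1]
  have h0 := abs_nonneg (Real.sin x)
  have h1 := Real.abs_sin_le_one x
  set s := |Real.sin x|
  have key : 4 / 3 - 7 / 9 * (1 - 2 * s ^ 2) - 1 / 9 * (2 * (1 - 2 * s ^ 2) ^ 2 - 1) - 2 * s
      = (2 / 9) * ((1 - s) * (2 * s - 1) ^ 2 * (s + 2)) := by ring
  have : 0 ≤ (2 / 9) * ((1 - s) * (2 * s - 1) ^ 2 * (s + 2)) := by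
    apply mul_nonneg (by norm_num)
    apply mul_nonneg (mul_nonneg (by linarith) (sq_nonneg _)) (by linarith)
  linarith

lemma UU_exp (θ : ℝ) (n : ℕ) : ((UU θ n : ℝ) : ℂ) = 4 / 3
    - 7 / 18 * (Complex.exp (((2 * θ : ℝ) : ℂ) * I) ^ n + Complex.exp (((-2 * θ : ℝ) : ℂ) * I) ^ n)
    - 1 / 18 * (Complex.exp (((4 * θ : ℝ) : ℂ) * I) ^ n + Complex.exp (((-4 * θ : ℝ) : ℂ) * I) ^ n) := by
  unfold UU
  rw [← Complex.exp_nat_mul, ← Complex.exp_nat_mul, ← Complex.exp_nat_mul, ← Complex.exp_nat_mul]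
  push_cast
  rw [Complex.cos, Complex.cos]
  have a1 : (n:ℂ) * (2 * θ * I) = 2 * (n * θ) * I := by ring
  have a2 : (n:ℂ) * (-2 * θ * I) = -(2 * (n * θ)) * I := by ring
  have a3 : (n:ℂ) * (4 * θ * I) = 4 * (n * θ) * I := by ring
  have a4 : (n:ℂ) * (-4 * θ * I) = -(4 * (n * θ)) * I := by ring
  rw [a1, a2, a3, a4]
  ring

lemma HM.mul_UU {T : ℕ → ℝ} {M : ℝ} (h : HM (fun n => (T n : ℂ)) M) {Y : ℝ} (hY : 0 < Y) :
    ∀ᶠ δ in 𝓝[>] (0:ℝ), HM (fun n => ((T n * UU (δ * Y) n + 1 / 3 : ℝ) : ℂ)) ((4 / 3 * M + 1 / 3 : ℝ) : ℂ) := by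
  filter_upwards [h.twist (α := 2 * Y) (by positivity), h.twist (α := -2 * Y) (by simp [hY.ne']),
    h.twist (α := 4 * Y) (by positivity), h.twist (α := -4 * Y) (by simp [hY.ne'])] with δ h1 h2 h3 h4
  have h5 := ((h.const_mul (4 / 3)).add (((h1.add h2).const_mul (-7/18)).add ((h3.add h4).const_mul (-1/18)))).add
    (HM.const (1 / 3))
  have e1 : (4 / 3 * (M:ℂ) + (-7 / 18 * (0 + 0) + -1 / 18 * (0 + 0)) + 1 / 3) = ((4 / 3 * M + 1 / 3 : ℝ) : ℂ) := by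
    push_cast; ring
  rw [e1] at h5
  refine cast ?_ h5
  congr 1
  funext n
  have e2 := UU_exp (δ * Y) n
  have a1 : 2 * (δ * Y) = 2 * Y * δ := by ring
  have a2 : -2 * (δ * Y) = -2 * Y * δ := by ring
  have a3 : 4 * (δ * Y) = 4 * Y * δ := by ring
  have a4 : -4 * (δ * Y) = -4 * Y * δ := by ring
  rw [a1, a2, a3, a4] at e2
  have e3 : ((T n * UU (δ * Y) n + 1 / 3 : ℝ) : ℂ) = (T n : ℂ) * ((UU (δ * Y) n : ℝ) : ℂ) + 1 / 3 := by
    push_cast; ring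
  rw [e3, e2]
  ring

lemma HM.hasSum {T : ℕ → ℂ} {M : ℂ} {K : ℝ} (hK : 0 < K) (h : HM T M) :
    ∃ S : ℝ → ℂ, Tendsto S (𝓝[>] 0) (𝓝 M) ∧ ∀ δ : ℝ, 0 < δ → HasSum (fun n => (bet K δ n : ℂ) * T n) (S δ) := by
  obtain ⟨l, hl, hT⟩ := h
  have key : ∀ l : List (ℂ × ℂ), (∀ p ∈ l, ‖p.2‖ = 1 ∧ p.2 ≠ 1) →
      ∃ S : ℝ → ℂ, Tendsto S (𝓝[>] 0) (𝓝 M) ∧ ∀ δ : ℝ, 0 < δ →
        HasSum (fun n => (bet K δ n : ℂ) * (M + (l.map (fun p => p.1 * p.2 ^ n)).sum)) (S δ) := by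
    intro l
    induction l with
    | nil =>
      intro _
      refine ⟨fun _ => M, tendsto_const_nhds, fun δ hδ => ?_⟩
      have h1 := (Complex.hasSum_ofReal.2 (tsum_bet hK hδ)).mul_right M
      simpa using h1
    | cons p l ih =>
      intro hpl
      obtain ⟨S, hS, hS2⟩ := ih (fun p' hp' => hpl p' (List.mem_cons_of_mem _ hp'))
      obtain ⟨hp1, hp2⟩ := hpl p (List.mem_cons_self)
      refine ⟨fun δ => S δ + p.1 * bmp K δ p.2, ?_, fun δ hδ => ?_⟩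
      · have := hS.add ((tendsto_bmp_zero (K := K) hp1.le hp2).const_mul p.1)
        simpa using this
      · have h1 := (hS2 δ hδ).add ((hasSum_bmp hK hδ hp1.le).mul_left p.1)
        refine h1.congr_fun ?_ |> fun h => h
        intro n
        rw [List.map_cons, List.sum_cons]
        ring
  obtain ⟨S, hS, hS2⟩ := key l hl
  refine ⟨S, hS, fun δ hδ => ?_⟩
  have := hS2 δ hδ
  simpa [hT] using this

lemma HM.bound {T : ℕ → ℝ} {M : ℝ} {K : ℝ} (hK : 0 < K) (h : HM (fun n => (T n : ℂ)) M) :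
    ∀ᶠ δ in 𝓝[>] (0:ℝ), Summable (fun n => bet K δ n * T n) ∧ ∑' n, bet K δ n * T n ≤ M + 1 := by
  obtain ⟨S, hS, hS2⟩ := h.hasSum hK
  have h1 := (Complex.continuous_re.tendsto _).comp hS
  rw [Complex.ofReal_re] at h1
  have hpos : ∀ᶠ δ in 𝓝[>] (0:ℝ), 0 < δ := eventually_mem_nhdsWithin
  filter_upwards [h1.eventually (gt_mem_nhds (show M < M + 1 by linarith)), hpos] with δ h2 h3
  have h4 := Complex.hasSum_re (hS2 δ h3)
  have h5 : HasSum (fun n => bet K δ n * T n) (S δ).re := by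
    refine h4.congr_fun ?_ |> fun h => h
    intro n
    rw [← Complex.ofReal_mul, Complex.ofReal_re]
  refine ⟨h5.summable, ?_⟩
  rw [h5.tsum_eq]
  exact h2.le

variable {ι : Type} [Fintype ι] [DecidableEq ι]
variable {F : ℂ → ℂ} {ζ : ι → ℂ} {R c K a b : ℝ}

/-- Fourier sum -/
def FS (F : ℂ → ℂ) (ζ : ι → ℂ) (n : ℕ) : ℂ := ∑ q, kap F (ζ q) * (ζ q)⁻¹ ^ n

lemma bool_sum (K : ℝ) (κ ζ1 : ℂ) (δ : ℝ) (n : ℕ) :
    ∑ t : Bool, -(sg t * I) * κ * (tipz K ζ1 (sg t) δ)⁻¹ ^ n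
      = (2 * Real.sin (n * (δ * YK K)) : ℝ) * (κ * ζ1⁻¹ ^ n) := by
  rw [Fintype.sum_bool]
  unfold tipz
  rw [mul_inv, mul_inv, mul_pow, mul_pow, ← Complex.exp_neg, ← Complex.exp_neg, ← Complex.exp_nat_mul,
    ← Complex.exp_nat_mul]
  simp only [sg, if_true, Bool.false_eq_true, if_false]
  push_cast
  rw [Complex.sin]
  have a1 : (n:ℂ) * -(-(1 * δ * (YK K : ℂ)) * I) = n * (δ * YK K) * I := by ring
  have a2 : (n:ℂ) * -(-(-1 * δ * (YK K : ℂ)) * I) = -(n * (δ * YK K)) * I := by ring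
  rw [a1, a2]
  ring

lemma FS_step (h : Conf F ζ R c K) {δ ε : ℝ} (hn : ∀ p : ι × Bool,
      ‖kap (GG F ζ c K δ) (nt ζ K δ p) - (-(sg p.2 * I) * kap F (ζ p.1))‖ < ε) (n : ℕ) :
    ‖FS (GG F ζ c K δ) (nt ζ K δ) n‖ ≤ ‖FS F ζ n‖ * (2 * |Real.sin (n * (δ * YK K))|) +
      (Fintype.card (ι × Bool)) * ε := by
  have e1 : FS (GG F ζ c K δ) (nt ζ K δ) n = ((2 * Real.sin (n * (δ * YK K)) : ℝ) : ℂ) * FS F ζ n +
      ∑ p : ι × Bool, (kap (GG F ζ c K δ) (nt ζ K δ p) - (-(sg p.2 * I) * kap F (ζ p.1))) * (nt ζ K δ p)⁻¹ ^ n := by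
    have e2 : ((2 * Real.sin (n * (δ * YK K)) : ℝ) : ℂ) * FS F ζ n
        = ∑ p : ι × Bool, (-(sg p.2 * I) * kap F (ζ p.1)) * (nt ζ K δ p)⁻¹ ^ n := by
      unfold FS
      rw [Finset.mul_sum, Fintype.sum_prod_type]
      apply Finset.sum_congr rfl
      intro q _
      rw [← bool_sum K (kap F (ζ q)) (ζ q) δ n]
      rfl
    rw [e2, ← Finset.sum_add_distrib]
    unfold FS
    apply Finset.sum_congr rfl
    intro p _
    ring
  rw [e1]
  refine (norm_add_le _ _).trans ?_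
  apply add_le_add
  · rw [norm_mul, Complex.norm_real, Real.norm_eq_abs, abs_mul, abs_of_pos (by norm_num : (0:ℝ) < 2), mul_comm]
  · refine (norm_sum_le _ _).trans ?_
    have : ∀ p ∈ (Finset.univ : Finset (ι × Bool)),
        ‖(kap (GG F ζ c K δ) (nt ζ K δ p) - (-(sg p.2 * I) * kap F (ζ p.1))) * (nt ζ K δ p)⁻¹ ^ n‖ ≤ ε := by
      intro p _
      have h1 : ‖nt ζ K δ p‖ = 1 := norm_tipz (h.unit p.1) _ _
      rw [norm_mul, norm_pow, norm_inv, h1, inv_one, one_pow, mul_one]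
      exact (hn p).le
    have h2 := Finset.sum_le_card_nsmul _ _ _ this
    rw [nsmul_eq_mul, Finset.card_univ] at h2
    exact h2

end
end Pool.Agent.H68.OW
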