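import Pool.Agent.H68.OW.OW11

set_option autoImplicit false
open Complex Filter Topology Set Metric

namespace Pool.Agent.H68.OW

noncomputable section

/-- a Hurwitz type lemma -/
lemma hurwitz_inj {f : ℂ → ℂ} {Fj : ℕ → ℂ → ℂ} {r : ℕ → ℝ} (hr : Tendsto r atTop (𝓝 0))
    (hf : DifferentiableOn ℂ f (ball 0 1)) (hFd : ∀ j, DifferentiableOn ℂ (Fj j) (ball 0 1))
    (hFi : ∀ j, InjOn (Fj j) (ball 0 1)) (hFf : ∀ j, ∀ z ∈ ball (0:ℂ) 1, ‖Fj j z - f z‖ ≤ r j)
    (hnc : deriv f 0 ≠ 0) : InjOn f (ball 0 1) := by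
  intro z1 hz1 z2 hz2 h12
  by_contra hne
  have hfa : AnalyticOnNhd ℂ f (ball 0 1) := hf.analyticOnNhd isOpen_ball
  have hiso : ∀ᶠ z in 𝓝[≠] z2, f z ≠ f z2 := by
    rcases (hfa z2 hz2).eventually_eq_or_eventually_ne (analyticAt_const (v := f z2)) with h | h
    · exfalso
      have h1 := hfa.eqOn_of_preconnected_of_eventuallyEq (g := fun _ => f z2) (fun z _ => analyticAt_const)
        (convex_ball (0:ℂ) 1).isPreconnected hz2 h
      apply hnc
      have h2 : f =ᶠ[𝓝 0] fun _ => f z2 := by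
        filter_upwards [isOpen_ball.mem_nhds (mem_ball_self (x := (0:ℂ)) (one_pos))] with z hz
        exact h1 hz
      rw [h2.deriv_eq]
      simp
    · exact h
  rw [eventually_nhdsWithin_iff] at hiso
  have hev : ∀ᶠ z in 𝓝 z2, (z ≠ z2 → f z ≠ f z2) ∧ z ∈ ball (0:ℂ) 1 ∧ z ≠ z1 := by
    filter_upwards [hiso, isOpen_ball.mem_nhds hz2, eventually_ne_nhds (Ne.symm hne)] with z h1 h2 h3
    exact ⟨h1, h2, h3⟩
  obtain ⟨ρ, hρ, hρb⟩ := Metric.eventually_nhds_iff_ball.1 hev
  set t := ρ / 2 with ht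
  have htp : 0 < t := by positivity
  have hsub : closedBall z2 t ⊆ ball z2 ρ := closedBall_subset_ball (by linarith)
  have hcont : ContinuousOn (fun z => ‖f z - f z2‖) (sphere z2 t) := by
    apply ContinuousOn.norm
    apply ContinuousOn.sub _ continuousOn_const
    apply hf.continuousOn.mono
    intro z hz
    exact (hρb z (hsub (sphere_subset_closedBall hz))).2.1
  obtain ⟨x, hx, hxm⟩ := (isCompact_sphere z2 t).exists_isMinOn (NormedSpace.sphere_nonempty.2 htp.le) hcont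
  set m := ‖f x - f z2‖ with hm
  have hmp : 0 < m := by
    rw [hm, norm_pos_iff, sub_ne_zero]
    apply (hρb x (hsub (sphere_subset_closedBall hx))).1
    intro h0
    rw [h0, mem_sphere, dist_self] at hx
    exact htp.ne hx
  have hmin : ∀ z ∈ sphere z2 t, m ≤ ‖f z - f z2‖ := fun z hz => hxm hz
  obtain ⟨j, hj⟩ := (hr.eventually (gt_mem_nhds (show (0:ℝ) < m / 8 by positivity))).exists
  set g : ℂ → ℂ := fun z => Fj j z - Fj j z1 with hg
  have hg0 : ∀ z ∈ closedBall z2 t, g z ≠ 0 := by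
    intro z hz h0
    obtain ⟨-, h2, h3⟩ := hρb z (hsub hz)
    exact h3 (hFi j h2 hz1 (sub_eq_zero.1 h0))
  have hgd : ∀ z ∈ closedBall z2 t, DifferentiableAt ℂ (fun z => (g z)⁻¹) z := by
    intro z hz
    apply DifferentiableAt.fun_inv _ (hg0 z hz)
    have h2 := (hρb z (hsub hz)).2.1
    exact ((hFd j).differentiableAt (isOpen_ball.mem_nhds h2)).sub_const _
  have hgl : ∀ z ∈ sphere z2 t, m / 2 ≤ ‖g z‖ := by
    intro z hz
    have h2 := (hρb z (hsub (sphere_subset_closedBall hz))).2.1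
    have e1 := hFf j z h2
    have e2 := hFf j z1 hz1
    have e3 := hmin z hz
    rw [← h12] at e3
    have e4 : f z - f z1 = g z - (Fj j z - f z) + (Fj j z1 - f z1) := by rw [hg]; ring
    have e5 : ‖f z - f z1‖ ≤ ‖g z‖ + ‖Fj j z - f z‖ + ‖Fj j z1 - f z1‖ := by
      rw [e4]
      exact (norm_add_le _ _).trans (add_le_add_left (norm_sub_le _ _) _)
    linarith
  have hmax := Complex.norm_le_of_forall_mem_frontier_norm_le (f := fun z => (g z)⁻¹) (U := ball z2 t)
    isBounded_ball (C := 2 / m) (by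
      apply DifferentiableOn.diffContOnCl
      rw [closure_ball _ htp.ne']
      exact fun z hz => (hgd z hz).differentiableWithinAt) (by
      intro z hz
      rw [frontier_ball _ htp.ne'] at hz
      rw [norm_inv]
      have h1 := hgl z hz
      have h2 : 2 / m = (m / 2)⁻¹ := by rw [inv_div]
      rw [h2]
      exact inv_anti₀ (by positivity) h1) (z := z2) (subset_closure (mem_ball_self htp))
  have hg2 : 0 < ‖g z2‖ := norm_pos_iff.2 (hg0 z2 (mem_closedBall_self htp.le))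
  rw [norm_inv] at hmax
  have h1 : m / 2 ≤ ‖g z2‖ := by
    have h2 : 2 / m = (m / 2)⁻¹ := by rw [inv_div]
    rw [h2] at hmax
    exact (inv_le_inv₀ hg2 (by positivity)).1 hmax
  have h2 : ‖g z2‖ ≤ r j + r j := by
    have e1 := hFf j z2 hz2
    have e2 := hFf j z1 hz1
    have e3 : g z2 = (Fj j z2 - f z2) - (Fj j z1 - f z1) := by rw [hg, h12]; ring
    rw [e3]
    exact (norm_sub_le _ _).trans (add_le_add e1 e2)
  linarith

variable [Sc]

/-- costs -/
def cst (j : ℕ) : ℝ := 2 * Lj j * (Mj j + 1)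

lemma Lj_le' (j : ℕ) : Lj j ≤ Sc.η * (2 * ss ^ j) := by
  unfold Lj
  refine mul_le_mul_of_nonneg_left ?_ Sc.pos.le
  unfold Lj0
  have := pow_pos ss_pos j
  have h1 : 1 / ((j:ℝ) + 1) ≤ 1 := by
    rw [div_le_one (by positivity)]
    have : (0:ℝ) ≤ j := Nat.cast_nonneg j
    linarith
  nlinarith

lemma Lj_le (j : ℕ) : Lj j ≤ 2 * ss ^ j := by
  refine (Lj_le' j).trans ?_
  have := pow_pos ss_pos j
  have h2 := Sc.le
  nlinarith [mul_le_mul_of_nonneg_right h2 this.le]

lemma cst_le' (j : ℕ) : cst j ≤ Sc.η * (8 * (ss * (4 / 3)) ^ j) := by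
  unfold cst Mj
  have h1 := Lj_le' j
  have h2 : (0:ℝ) < (4 / 3) ^ j := by positivity
  have e : 2 * Lj j * (2 * (4 / 3) ^ j - 1 + 1) = 4 * (4 / 3) ^ j * Lj j := by ring
  rw [e, mul_pow]
  have h3 := mul_le_mul_of_nonneg_left h1 (by positivity : (0:ℝ) ≤ 4 * (4 / 3) ^ j)
  calc 4 * (4 / 3) ^ j * Lj j ≤ 4 * (4 / 3) ^ j * (Sc.η * (2 * ss ^ j)) := h3
    _ = Sc.η * (8 * (ss ^ j * (4 / 3) ^ j)) := by ring

lemma cst_le (j : ℕ) : cst j ≤ 8 * (ss * (4 / 3)) ^ j := by
  refine (cst_le' j).trans ?_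
  have h1 : 0 ≤ (ss * (4 / 3)) ^ j := by have := ss_pos; positivity
  have h2 := Sc.le
  nlinarith [mul_le_mul_of_nonneg_right h2 h1]

lemma cst_nonneg (j : ℕ) : 0 ≤ cst j := by
  unfold cst Mj
  have h1 := Lj_pos j
  have h2 : (0:ℝ) < (4 / 3) ^ j := by positivity
  have e : 2 * Lj j * (2 * (4 / 3) ^ j - 1 + 1) = 4 * (4 / 3) ^ j * Lj j := by ring
  rw [e]; positivity

lemma geo_sum : Summable (fun j : ℕ => 8 * (ss * (4 / 3)) ^ j) ∧
    ∑' j : ℕ, 8 * (ss * (4 / 3)) ^ j ≤ 160 := by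
  have h1 := ss_sq
  have h2 := ss_pos
  have h3 : ss * (4 / 3) ≤ 19 / 20 := by nlinarith
  have h4 : 0 ≤ ss * (4 / 3) := by positivity
  have h5 : Summable (fun j : ℕ => (ss * (4 / 3)) ^ j) :=
    summable_geometric_of_lt_one h4 (by linarith)
  refine ⟨h5.mul_left _, ?_⟩
  rw [tsum_mul_left, tsum_geometric_of_lt_one h4 (by linarith)]
  have h6 : (1 - ss * (4 / 3))⁻¹ ≤ 20 := by
    rw [inv_le_comm₀ (by linarith) (by norm_num)]
    linarith
  linarith

lemma summable_cst : Summable cst := by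
  apply Summable.of_nonneg_of_le cst_nonneg cst_le
  apply Summable.mul_left
  apply summable_geometric_of_lt_one
  · have := ss_pos; positivity
  · have h1 := ss_sq
    have h2 := ss_pos
    nlinarith

lemma limit_coeffs {co : ℕ → ℕ → ℂ} (h1 : ∀ j, Summable (fun n => ‖co (j+1) n - co j n‖))
    (h2 : ∀ j, ∑' n, ‖co (j+1) n - co j n‖ ≤ cst j) :
    ∃ a : ℕ → ℂ, (∀ j, Summable (fun n => ‖a n - co j n‖) ∧ ∑' n, ‖a n - co j n‖ ≤ ∑' i, cst (i + j)) ∧
      ∀ n, Summable (fun j => ‖co (j+1) n - co j n‖) ∧ a n = co 0 n + ∑' j, (co (j+1) n - co j n) := by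
  set D : ℕ → ℕ → ℂ := fun j n => co (j+1) n - co j n with hD
  have hP : ∀ j, Summable (fun p : ℕ × ℕ => ‖D (p.1 + j) p.2‖) := by
    intro j
    rw [summable_prod_of_nonneg (fun p => norm_nonneg _)]
    refine ⟨fun i => h1 (i + j), ?_⟩
    apply Summable.of_nonneg_of_le (fun i => tsum_nonneg fun n => norm_nonneg _) (fun i => h2 (i + j))
    exact (summable_nat_add_iff j).2 summable_cst
  have hQ : ∀ j, Summable (fun p : ℕ × ℕ => ‖D (p.2 + j) p.1‖) := fun j => (hP j).prod_symm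
  have hR := fun j => (summable_prod_of_nonneg (fun p => norm_nonneg _)).1 (hQ j)
  have hcol : ∀ n, Summable (fun j => ‖D j n‖) := by
    intro n
    have := (hR 0).1 n
    simpa using this
  refine ⟨fun n => co 0 n + ∑' j, D j n, ?_, fun n => ⟨hcol n, rfl⟩⟩
  intro j
  have e1 : ∀ n, co 0 n + ∑' j, D j n - co j n = ∑' i, D (i + j) n := by
    intro n
    have h3 := (hcol n).of_norm.sum_add_tsum_nat_add j
    have h4 : ∑ i ∈ Finset.range j, D i n = co j n - co 0 n := by
      rw [hD]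
      exact Finset.sum_range_sub (fun i => co i n) j
    rw [← h3, h4]; ring
  have e2 : ∀ n, ‖co 0 n + ∑' j, D j n - co j n‖ ≤ ∑' i, ‖D (i + j) n‖ := by
    intro n
    rw [e1 n]
    exact norm_tsum_le_tsum_norm ((hR j).1 n)
  have hs : Summable (fun n => ‖co 0 n + ∑' j, D j n - co j n‖) :=
    Summable.of_nonneg_of_le (fun n => norm_nonneg _) e2 (hR j).2
  refine ⟨hs, ?_⟩
  calc ∑' n, ‖co 0 n + ∑' j, D j n - co j n‖ ≤ ∑' n, ∑' i, ‖D (i + j) n‖ :=
        hs.tsum_le_tsum e2 (hR j).2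
    _ = ∑' i, ∑' n, ‖D (i + j) n‖ := Summable.tsum_comm (f := fun i n => ‖D (i + j) n‖) (hP j)
    _ ≤ ∑' i, cst (i + j) := by
        apply Summable.tsum_le_tsum (fun i => h2 (i + j))
        · exact ((summable_prod_of_nonneg (fun p => norm_nonneg _)).1 (hP j)).2
        · exact (summable_nat_add_iff j).2 summable_cst

lemma ball_sub_Bx {p κ : ℂ} (hκ : ‖κ‖ = 1) (j : ℕ) :
    ball (p + Lj j * κ) (Sc.η * ss ^ (j + 1)) ⊆ Bx p κ (aj j) (bj j) := by
  intro w hw
  rw [mem_ball_iff_norm] at hw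
  have h1 := conj_mul_self_of_unit hκ
  have e : starRingEnd ℂ κ * (w - p) = Lj j + starRingEnd ℂ κ * (w - (p + Lj j * κ)) := by
    linear_combination (Lj j : ℂ) * h1
  set v := starRingEnd ℂ κ * (w - (p + Lj j * κ)) with hv
  have hvn : ‖v‖ ≤ Sc.η * ss ^ (j + 1) := by
    rw [hv, norm_mul, Complex.norm_conj, hκ, one_mul]; exact hw.le
  have hre := abs_le.1 ((Complex.abs_re_le_norm v).trans hvn)
  have him := (Complex.abs_im_le_norm v).trans hvn
  have hp := mul_pos Sc.pos (pow_pos ss_pos j)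
  have hp1 := mul_pos Sc.pos (pow_pos ss_pos (j + 1))
  have hL : Sc.η * ss ^ j ≤ Lj j := by
    unfold Lj
    refine mul_le_mul_of_nonneg_left ?_ Sc.pos.le
    unfold Lj0
    have h0 := pow_pos ss_pos j
    have : 0 ≤ 1 / ((j:ℝ) + 1) := by positivity
    nlinarith
  have hL1 : Sc.η * ss ^ (j + 1) ≤ Lj (j + 1) := by
    unfold Lj
    refine mul_le_mul_of_nonneg_left ?_ Sc.pos.le
    unfold Lj0
    have h0 := pow_pos ss_pos (j + 1)
    have : 0 ≤ 1 / (((j + 1 : ℕ):ℝ) + 1) := by positivity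
    nlinarith
  have hss : Sc.η * ss ^ (j + 1) ≤ Sc.η * ss ^ j := by
    refine mul_le_mul_of_nonneg_left ?_ Sc.pos.le
    rw [pow_succ]
    have h0 := pow_pos ss_pos j
    nlinarith [ss_lt_one]
  have hm := mj_pos j
  unfold Bx
  rw [mem_ofPred_eq, e, Complex.add_re, Complex.add_im, Complex.ofReal_re, Complex.ofReal_im, zero_add]
  refine ⟨by linarith [hre.1], ?_, ?_⟩
  · unfold aj; linarith [hre.2]
  · unfold bj; linarith

lemma tendsto_ab : Tendsto (fun j => aj j + bj j) atTop (𝓝 0) := by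
  have h1 : Tendsto (fun j : ℕ => 10 * ss ^ j) atTop (𝓝 0) := by
    have := (tendsto_pow_atTop_nhds_zero_of_lt_one ss_pos.le ss_lt_one).const_mul 10
    simpa using this
  apply squeeze_zero (fun j => (by linarith [aj_pos j, bj_pos j])) _ h1
  intro j
  unfold aj bj
  have e1 := Lj_le j
  have e2 := Lj_le (j + 1)
  have hp := pow_pos ss_pos j
  have hss : ss ^ (j + 1) ≤ ss ^ j := by
    rw [pow_succ]
    nlinarith [ss_lt_one]
  have e3 : mj j ≤ ss ^ j := by
    have e4 : mj0 j ≤ ss ^ j := by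
      unfold mj0
      apply div_le_self hp.le
      have : (0:ℝ) ≤ j := Nat.cast_nonneg j
      nlinarith
    have e5 := mj0_pos j
    have e6 := Sc.le
    unfold mj
    nlinarith [mul_le_mul_of_nonneg_right e6 e5.le]
  linarith

lemma area_lower {j : ℕ} (s : St j) {S : Set ℂ} {ρ : ℝ}
    (hS : ∀ q, ∀ w ∈ Bx (s.F (s.ζ q)) (kap s.F (s.ζ q)) (aj j) (bj j), w ∈ cthickening ρ S) :
    ENNReal.ofReal (Sc.η ^ 2 / 2) * NNReal.pi ≤ MeasureTheory.volume (cthickening ρ S) := by
  have hsub : (⋃ q, ball (s.F (s.ζ q) + Lj j * kap s.F (s.ζ q)) (Sc.η * ss ^ (j + 1))) ⊆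
      cthickening ρ S := by
    apply iUnion_subset
    intro q w hw
    exact hS q w (ball_sub_Bx (s.good.kap1 q) j hw)
  refine le_trans ?_ (MeasureTheory.measure_mono hsub)
  rw [MeasureTheory.measure_iUnion]
  · have e1 : ∀ q, MeasureTheory.volume
        (ball (s.F (s.ζ q) + Lj j * kap s.F (s.ζ q)) (Sc.η * ss ^ (j + 1)))
        = ENNReal.ofReal (Sc.η ^ 2 * (1 / 2) ^ (j + 1)) * NNReal.pi := by
      intro q
      rw [Complex.volume_ball, ← ENNReal.ofReal_pow (mul_pos Sc.pos (pow_pos ss_pos _)).le,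
        mul_pow, ← pow_mul ss, mul_comm (j + 1) 2, pow_mul ss, ss_sq]
    simp only [e1]
    rw [tsum_fintype, Finset.sum_const, Finset.card_univ, s.card, nsmul_eq_mul, ← mul_assoc]
    apply le_of_eq
    congr 1
    have : ((2 ^ j : ℕ) : ENNReal) = ENNReal.ofReal (2 ^ j) := by
      rw [ENNReal.ofReal_pow (by norm_num)]; simp
    rw [this, ← ENNReal.ofReal_mul (by positivity)]
    congr 1
    rw [pow_succ]
    have e7 : (2:ℝ) ^ j * (1 / 2) ^ j = 1 := by rw [← mul_pow]; norm_num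
    calc Sc.η ^ 2 / 2 = Sc.η ^ 2 * ((2:ℝ) ^ j * (1 / 2) ^ j) * (1 / 2) := by rw [e7]; ring
      _ = (2:ℝ) ^ j * (Sc.η ^ 2 * ((1 / 2) ^ j * (1 / 2))) := by ring
  · intro q q' hne
    have hd := s.good.disj q q' hne
    exact Disjoint.mono (ball_sub_Bx (s.good.kap1 q) j) (ball_sub_Bx (s.good.kap1 q') j) hd
  · intro q
    exact measurableSet_ball

theorem main (hη : 320 * Sc.η ≤ 1) : ∃ a : ℕ → ℂ, Summable (fun n => ‖a n‖) ∧ a 0 = 0 ∧ a 1 = 1 ∧
      (∑' n, ‖a (n + 2)‖ ≤ 320 * Sc.η) ∧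
      Set.InjOn (fun z : ℂ => ∑' n, a n * z ^ n) (Metric.ball (0 : ℂ) 1) ∧
      0 < MeasureTheory.volume
        ((fun z : ℂ => ∑' n, a n * z ^ n) '' Metric.sphere (0 : ℂ) 1) := by
  obtain ⟨s, hs0, hs00, hs⟩ := exists_seq
  obtain ⟨a, ha, ha2⟩ := limit_coeffs (co := fun j => (s j).co) (fun j => (hs j).1) (fun j => (hs j).2.1)
  set r : ℕ → ℝ := fun j => ∑' i, cst (i + j) with hr
  have hr0 : Tendsto r atTop (𝓝 0) := tendsto_sum_nat_add cst
  have hasum : Summable (fun n => ‖a n‖) := by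
    refine Summable.of_nonneg_of_le (fun n => norm_nonneg _) (fun n => ?_) ((ha 0).1.add (s 0).sm)
    calc ‖a n‖ = ‖(a n - (s 0).co n) + (s 0).co n‖ := by rw [sub_add_cancel]
      _ ≤ _ := norm_add_le _ _
  have ha1 : a 1 ≠ 0 := by
    intro h0
    have h1 := (ha2 1).2
    have h2 := (ha2 1).1
    have h3 : ‖∑' j, ((s (j+1)).co 1 - (s j).co 1)‖ ≤ 1 / 2 := by
      refine (norm_tsum_le_tsum_norm h2).trans ?_
      have h4 : Summable (fun j : ℕ => ((1:ℝ) / 2) ^ (j + 2)) := by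
        simp only [pow_add]
        exact (summable_geometric_of_lt_one (by norm_num) (by norm_num)).mul_right _
      refine (h2.tsum_le_tsum (fun j => (hs j).2.2) h4).trans ?_
      apply le_of_eq
      simp only [pow_add]
      rw [tsum_mul_right, tsum_geometric_of_lt_one (by norm_num) (by norm_num)]
      norm_num
    rw [h0] at h1
    have h5 : ∑' j, ((s (j+1)).co 1 - (s j).co 1) = -1 := by
      have : (s 0).co 1 + ∑' j, ((s (j+1)).co 1 - (s j).co 1) = 0 := h1.symm
      rw [hs0] at this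
      linear_combination this
    rw [h5] at h3
    norm_num at h3
  set f : ℂ → ℂ := fun z => ∑' n, a n * z ^ n with hf
  have hterm : ∀ n, ∀ z ∈ closedBall (0:ℂ) 1, ‖a n * z ^ n‖ ≤ ‖a n‖ := by
    intro n z hz
    rw [mem_closedBall_zero_iff] at hz
    rw [norm_mul, norm_pow]
    exact mul_le_of_le_one_right (norm_nonneg _) (pow_le_one₀ (norm_nonneg _) hz)
  have hfs : ∀ z ∈ closedBall (0:ℂ) 1, Summable (fun n => a n * z ^ n) := fun z hz =>
    Summable.of_norm_bounded hasum (fun n => hterm n z hz)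
  have hfc : ContinuousOn f (closedBall 0 1) :=
    continuousOn_tsum (fun n => by fun_prop) hasum (fun n z hz => hterm n z hz)
  have hfd : DifferentiableOn ℂ f (ball 0 1) :=
    Complex.differentiableOn_tsum_of_summable_norm hasum (fun n => by fun_prop) isOpen_ball
      (fun n z hz => hterm n z (ball_subset_closedBall hz))
  have hder : deriv f 0 = a 1 := by
    have h1 := Complex.hasSum_deriv_of_summable_norm (z := 0) hasum (F := fun n z => a n * z ^ n) (U := ball 0 1)
      (fun n => by fun_prop) isOpen_ball (fun n z hz => hterm n z (ball_subset_closedBall hz)) (mem_ball_self one_pos)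
    have h2 : (fun n : ℕ => deriv (fun z : ℂ => a n * z ^ n) 0) = fun n => if n = 1 then a 1 else 0 := by
      funext n
      have h3 : deriv (fun z : ℂ => a n * z ^ n) 0 = a n * (n * 0 ^ (n - 1)) := by
        rw [deriv_const_mul _ (by fun_prop)]
        congr 1
        simp
      rw [h3]
      rcases n with _ | _ | n
      · simp
      · simp
      · simp
    rw [h2] at h1
    exact h1.unique (hasSum_ite_eq 1 (a 1))
  have hclose : ∀ j, ∀ z ∈ closedBall (0:ℂ) 1, ‖(s j).F z - f z‖ ≤ r j := by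
    intro j z hz
    have h1 := (s j).hs z hz
    have h2 := (hfs z hz).hasSum
    have h3 := h2.sub h1
    have e : ∀ n, a n * z ^ n - (s j).co n * z ^ n = (a n - (s j).co n) * z ^ n := fun n => by ring
    simp only [e] at h3
    rw [norm_sub_rev, ← h3.tsum_eq]
    have hb : ∀ n, ‖(a n - (s j).co n) * z ^ n‖ ≤ ‖a n - (s j).co n‖ := by
      intro n
      rw [mem_closedBall_zero_iff] at hz
      rw [norm_mul, norm_pow]
      exact mul_le_of_le_one_right (norm_nonneg _) (pow_le_one₀ (norm_nonneg _) hz)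
    have hsn : Summable (fun n => ‖(a n - (s j).co n) * z ^ n‖) :=
      Summable.of_nonneg_of_le (fun n => norm_nonneg _) hb (ha j).1
    exact (norm_tsum_le_tsum_norm hsn).trans ((hsn.tsum_le_tsum hb (ha j).1).trans (ha j).2)
  have hinj : InjOn f (ball 0 1) := by
    apply hurwitz_inj hr0 hfd (Fj := fun j => (s j).F)
    · intro j
      exact (s j).good.an.mono (ball_subset_ball (s j).good.hR.le)
    · intro j
      exact (s j).good.inj.mono ball_subset_closedBall
    · intro j z hz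
      exact hclose j z (ball_subset_closedBall hz)
    · rw [hder]; exact ha1
  have hcomp : IsCompact (f '' sphere 0 1) :=
    (isCompact_sphere _ _).image_of_continuousOn (hfc.mono sphere_subset_closedBall)
  have hvol : ENNReal.ofReal (Sc.η ^ 2 / 2) * NNReal.pi ≤ MeasureTheory.volume (f '' sphere 0 1) := by
    have h1 : Tendsto (fun j => MeasureTheory.volume (cthickening (aj j + bj j + r j) (f '' sphere 0 1))) atTop
        (𝓝 (MeasureTheory.volume (f '' sphere 0 1))) := by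
      refine (tendsto_measure_cthickening_of_isCompact hcomp).comp ?_
      have := tendsto_ab.add hr0
      simpa using this
    refine ge_of_tendsto' h1 ?_
    intro j
    apply area_lower (s j)
    intro q w hw
    have hζ := (s j).good.unit q
    have hm : (s j).ζ q ∈ sphere (0:ℂ) 1 := by rw [mem_sphere_zero_iff_norm]; exact hζ
    apply mem_cthickening_of_dist_le w (f ((s j).ζ q)) _ _ (mem_image_of_mem _ hm)
    have h2 := Bx_norm ((s j).good.kap1 q) hw
    have h3 := hclose j _ ((s j).good.mem q)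
    rw [dist_eq_norm]
    calc ‖w - f ((s j).ζ q)‖ = ‖(w - (s j).F ((s j).ζ q)) + ((s j).F ((s j).ζ q) - f ((s j).ζ q))‖ := by
          congr 1; ring
      _ ≤ _ := norm_add_le _ _
      _ ≤ _ := by linarith
  have hvpos : 0 < MeasureTheory.volume (f '' sphere 0 1) := by
    refine lt_of_lt_of_le ?_ hvol
    apply ENNReal.mul_pos
    · have := Sc.pos
      have h2 : 0 < Sc.η ^ 2 / 2 := by positivity
      exact (ENNReal.ofReal_pos.2 h2).ne'
    · simpa using NNReal.pi_ne_zero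
  -- normalisation
  set b : ℕ → ℂ := fun n => if n = 0 then 0 else a n / a 1 with hb
  have hbs : ∀ z ∈ closedBall (0:ℂ) 1, HasSum (fun n => b n * z ^ n) ((f z - a 0) / a 1) := by
    intro z hz
    have h1 := (hfs z hz).hasSum
    have h2 : HasSum (fun n : ℕ => if n = 0 then a 0 else 0) (a 0) := hasSum_ite_eq 0 (a 0)
    have h3 := (h1.sub h2).div_const (a 1)
    refine h3.congr_fun ?_ |> fun h => h
    intro n
    rw [hb]
    rcases n with _ | n
    · simp
    · simp; ring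
  have hbt : ∀ z ∈ closedBall (0:ℂ) 1, ∑' n, b n * z ^ n = (f z - a 0) / a 1 := fun z hz => (hbs z hz).tsum_eq
  have hr0le : r 0 ≤ 160 * Sc.η := by
    have h1 : r 0 = ∑' i, cst i := by simp [hr]
    rw [h1]
    calc ∑' i, cst i ≤ ∑' i : ℕ, Sc.η * (8 * (ss * (4 / 3)) ^ i) :=
          summable_cst.tsum_le_tsum cst_le' (geo_sum.1.mul_left _)
      _ = Sc.η * ∑' i : ℕ, 8 * (ss * (4 / 3)) ^ i := tsum_mul_left
      _ ≤ Sc.η * 160 := mul_le_mul_of_nonneg_left geo_sum.2 Sc.pos.le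
      _ = 160 * Sc.η := mul_comm _ _
  have hdiff := (ha 0).2.trans (show (∑' i, cst (i + 0)) ≤ 160 * Sc.η from hr0le)
  have hco0 : ∀ n, n ≠ 1 → (s 0).co n = 0 := hs00
  have ha1' : 1 / 2 ≤ ‖a 1‖ := by
    have h1 : ‖a 1 - (s 0).co 1‖ ≤ ∑' n, ‖a n - (s 0).co n‖ :=
      (ha 0).1.le_tsum 1 (fun _ _ => norm_nonneg _)
    rw [hs0] at h1
    have h2 : (1:ℝ) ≤ ‖a 1‖ + ‖a 1 - 1‖ := by
      have h3 := norm_sub_norm_le (1 : ℂ) (1 - a 1)
      have h4 : (1 : ℂ) - (1 - a 1) = a 1 := by ring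
      rw [h4, norm_one, norm_sub_rev] at h3
      linarith
    linarith
  have htail : ∑' n, ‖a (n + 2)‖ ≤ 160 * Sc.η := by
    have h1 : Summable (fun n => ‖a (n + 2) - (s 0).co (n + 2)‖) :=
      (summable_nat_add_iff (f := fun n => ‖a n - (s 0).co n‖) 2).2 (ha 0).1
    have h2 : ∑' n, ‖a (n + 2) - (s 0).co (n + 2)‖ ≤ ∑' n, ‖a n - (s 0).co n‖ := by
      rw [← (ha 0).1.sum_add_tsum_nat_add 2]
      have : 0 ≤ ∑ i ∈ Finset.range 2, ‖a i - (s 0).co i‖ :=
        Finset.sum_nonneg fun _ _ => norm_nonneg _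
      linarith
    have h3 : ∀ n, ‖a (n + 2)‖ = ‖a (n + 2) - (s 0).co (n + 2)‖ := by
      intro n
      rw [hco0 (n + 2) (by omega), sub_zero]
    simp only [h3]
    exact h2.trans hdiff
  refine ⟨b, ?_, by simp [hb], by simp [hb, ha1], ?_, ?_, ?_⟩
  · refine Summable.of_nonneg_of_le (fun n => norm_nonneg _) (fun n => ?_) (hasum.div_const ‖a 1‖)
    rw [hb]
    beta_reduce
    split_ifs with h
    · rw [norm_zero]; positivity
    · rw [norm_div]
  · have h1 : ∀ n, ‖b (n + 2)‖ = ‖a (n + 2)‖ / ‖a 1‖ := by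
      intro n
      simp [hb]
    simp only [h1]
    rw [tsum_div_const, div_le_iff₀ (by linarith)]
    have := Sc.pos
    nlinarith
  · intro z hz w hw hzw
    have hzw' : (∑' n, b n * z ^ n) = ∑' n, b n * w ^ n := hzw
    rw [hbt z (ball_subset_closedBall hz), hbt w (ball_subset_closedBall hw), div_left_inj' ha1] at hzw'
    exact hinj hz hw (sub_left_injective hzw')
  · by_contra hcon
    rw [not_lt, nonpos_iff_eq_zero] at hcon
    have h1 : f '' sphere 0 1 = (fun w => a 1 * w + a 0) '' ((fun z : ℂ => ∑' n, b n * z ^ n) '' sphere 0 1) := by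
      rw [image_image]
      apply image_congr
      intro z hz
      rw [hbt z (sphere_subset_closedBall hz)]
      field_simp
      ring
    have h2 := MeasureTheory.addHaar_image_eq_zero_of_differentiableOn_of_addHaar_eq_zero
      (μ := (MeasureTheory.volume : MeasureTheory.Measure ℂ)) (f := fun w : ℂ => a 1 * w + a 0)
      (s := (fun z : ℂ => ∑' n, b n * z ^ n) '' sphere 0 1) (by fun_prop) hcon
    rw [← h1] at h2
    exact hvpos.ne' h2

end
end Pool.Agent.H68.OW
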