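import Pool.Agent.H68.OW.OW3

set_option autoImplicit false
open Complex Filter Topology Set Metric

namespace Pool.Agent.H68.OW

noncomputable section

/-- position of the new tips on the circle -/
def tipz (K : ℝ) (ζ : ℂ) (σ δ : ℝ) : ℂ := ζ * Complex.exp (((-(σ * δ * YK K) : ℝ) : ℂ) * I)

lemma norm_tipz {K : ℝ} {ζ : ℂ} (hζ : ‖ζ‖ = 1) (σ δ : ℝ) : ‖tipz K ζ σ δ‖ = 1 := by
  unfold tipz
  rw [norm_mul, hζ, Complex.norm_exp_ofReal_mul_I, one_mul]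

/-- limit position in rescaled coordinates -/
def uu (K σ : ℝ) : ℂ := ((σ * YK K : ℝ) : ℂ) * I

def up (K σ δ : ℝ) : ℂ := (1 - Complex.exp (((-(σ * δ * YK K) : ℝ) : ℂ) * I)) / δ

lemma tendsto_up (K σ : ℝ) : Tendsto (up K σ) (𝓝[>] 0) (𝓝 (uu K σ)) := by
  have h1 : HasDerivAt (fun δ : ℝ => Complex.exp (((-(σ * δ * YK K) : ℝ) : ℂ) * I))
      (Complex.exp (((-(σ * 0 * YK K) : ℝ) : ℂ) * I) * (((-(σ * 1 * YK K) : ℝ) : ℂ) * I)) 0 := by
    apply HasDerivAt.cexp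
    apply HasDerivAt.mul_const
    have h2 : HasDerivAt (fun δ : ℝ => -(σ * δ * YK K)) (-(σ * 1 * YK K)) 0 :=
      (((hasDerivAt_id (0:ℝ)).const_mul σ).mul_const (YK K)).neg
    exact h2.ofReal_comp
  rw [hasDerivAt_iff_tendsto_slope_zero] at h1
  have h3 := (h1.mono_left (nhdsWithin_mono (0:ℝ) (fun x (hx : 0 < x) => (ne_of_gt hx : x ≠ 0)))).neg
  have e1 : -(Complex.exp (((-(σ * 0 * YK K) : ℝ) : ℂ) * I) * (((-(σ * 1 * YK K) : ℝ) : ℂ) * I)) = uu K σ := by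
    unfold uu
    simp
  rw [e1] at h3
  refine h3.congr ?_
  intro δ
  unfold up
  simp only [zero_add, mul_zero, zero_mul, neg_zero, Complex.ofReal_zero, Complex.exp_zero]
  rw [Complex.real_smul]
  push_cast
  ring

def DD (K : ℝ) (u : ℂ) : ℂ := (1 + u) * (1 + K + u)

lemma DD_ne {K : ℝ} (hK : 0 < K) {u : ℂ} (hu : 0 ≤ u.re) : DD K u ≠ 0 := by
  unfold DD
  apply mul_ne_zero
  · apply ne_of_re_pos; simp; linarith
  · apply ne_of_re_pos; simp; linarith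

lemma DD_uu {K σ : ℝ} (hK : 0 < K) (hσ : σ = 1 ∨ σ = -1) : DD K (uu K σ) = uu K σ * (2 + K) := by
  have hY := YK_sq hK
  have hYc : (YK K : ℂ) ^ 2 = 1 + K := by exact_mod_cast congrArg (fun x : ℝ => (x : ℂ)) hY
  have hσ2 : (σ : ℂ) ^ 2 = 1 := by rcases hσ with rfl | rfl <;> norm_num
  unfold DD uu
  push_cast
  have hI : I ^ 2 = -1 := Complex.I_sq
  linear_combination ((σ : ℂ) ^ 2 * YK K ^ 2) * hI - ((σ : ℂ) ^ 2) * hYc - (1 + K) * hσ2

lemma uu_ne {K σ : ℝ} (hK : 0 < K) (hσ : σ = 1 ∨ σ = -1) : uu K σ ≠ 0 := by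
  unfold uu
  have := YK_pos hK
  have h2 : σ * YK K ≠ 0 := by
    apply mul_ne_zero _ this.ne'
    rcases hσ with rfl | rfl <;> norm_num
  exact mul_ne_zero (by exact_mod_cast h2) Complex.I_ne_zero

lemma om_re {K σ : ℝ} (hK : 0 < K) (hσ : σ = 1 ∨ σ = -1) :
    ((2 + K + uu K σ + uu K σ) / DD K (uu K σ)).re = 2 / (2 + K) := by
  rw [DD_uu hK hσ]
  have hu := uu_ne hK hσ
  have hK2 : (2 + (K : ℂ)) ≠ 0 := by
    have : (2 + (K : ℂ)) = ((2 + K : ℝ) : ℂ) := by push_cast; ring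
    rw [this]; exact_mod_cast (by linarith : (2 + K) ≠ 0)
  have : (2 + K + uu K σ + uu K σ) / (uu K σ * (2 + K)) = (uu K σ)⁻¹ + ((2 / (2 + K) : ℝ) : ℂ) := by
    push_cast
    field_simp
    ring
  rw [this, Complex.add_re, Complex.ofReal_re, Complex.inv_re]
  have : (uu K σ).re = 0 := by unfold uu; simp
  rw [this]; simp

/-- the algebraic inequality behind local convexity -/
lemma alg_ineq {v ω : ℂ} {t c0 C0 r ε : ℝ} (hv : 0 ≤ v.re) (hv0 : v ≠ 0) (hvr : ‖v‖ ≤ r)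
    (ht : 0 < t) (ht1 : t ≤ 1) (hω : c0 ≤ ω.re) (hω2 : ‖ω‖ ≤ C0) (hε0 : 0 ≤ ε) (hε : ε ≤ c0 / 2) (hc0 : 0 < c0)
    (hr : (3 * C0 + ε) * r ≤ 1 / 2) :
    0 < (v - t * ω * v ^ 2).re - ε * t * ‖v‖ ^ 2 := by
  have hx : |v.re| ≤ ‖v‖ := Complex.abs_re_le_norm v
  have hy : |v.im| ≤ ‖v‖ := Complex.abs_im_le_norm v
  have tx : |ω.re| ≤ C0 := (Complex.abs_re_le_norm ω).trans hω2
  have ty : |ω.im| ≤ C0 := (Complex.abs_im_le_norm ω).trans hω2
  have hn : ‖v‖ ^ 2 = v.re ^ 2 + v.im ^ 2 := by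
    rw [Complex.sq_norm, Complex.normSq_apply]; ring
  have hC0 : 0 ≤ C0 := (abs_nonneg _).trans tx
  have hnv := norm_nonneg v
  have e : (v - t * ω * v ^ 2).re
      = v.re - t * (ω.re * (v.re ^ 2 - v.im ^ 2) - 2 * ω.im * (v.re * v.im)) := by
    have : v ^ 2 = v * v := sq v
    rw [this]
    simp only [Complex.mul_re, Complex.sub_re, Complex.ofReal_re, Complex.ofReal_im, Complex.mul_im]
    ring
  rw [e, hn]
  have h1 : ω.re * v.re ^ 2 ≤ C0 * (v.re * r) := by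
    have a1 : ω.re ≤ C0 := (le_abs_self _).trans tx
    have a2 : v.re ≤ r := ((le_abs_self _).trans hx).trans hvr
    calc ω.re * v.re ^ 2 ≤ C0 * v.re ^ 2 := mul_le_mul_of_nonneg_right a1 (sq_nonneg _)
      _ = C0 * (v.re * v.re) := by ring
      _ ≤ C0 * (v.re * r) := mul_le_mul_of_nonneg_left (mul_le_mul_of_nonneg_left a2 hv) hC0
  have h2 : -(2 * ω.im * (v.re * v.im)) ≤ 2 * C0 * (v.re * r) := by
    have a1 : |2 * ω.im * (v.re * v.im)| ≤ 2 * C0 * (v.re * r) := by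
      rw [abs_mul, abs_mul, abs_mul, abs_of_nonneg hv, abs_two]
      apply mul_le_mul
      · linarith
      · exact mul_le_mul_of_nonneg_left (hy.trans hvr) hv
      · positivity
      · positivity
    linarith [(abs_le.1 a1).1]
  have h3 : c0 * v.im ^ 2 ≤ ω.re * v.im ^ 2 := mul_le_mul_of_nonneg_right hω (sq_nonneg _)
  have h4 : ε * v.re ^ 2 ≤ ε * (v.re * r) := by
    apply mul_le_mul_of_nonneg_left _ hε0
    have a2 : v.re ≤ r := ((le_abs_self _).trans hx).trans hvr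
    calc v.re ^ 2 = v.re * v.re := by ring
      _ ≤ _ := mul_le_mul_of_nonneg_left a2 hv
  have h5 : ε * v.im ^ 2 ≤ c0 / 2 * v.im ^ 2 := mul_le_mul_of_nonneg_right hε (sq_nonneg _)
  -- collect
  have h6 : (ω.re * (v.re ^ 2 - v.im ^ 2) - 2 * ω.im * (v.re * v.im)) + ε * (v.re ^ 2 + v.im ^ 2)
      ≤ (3 * C0 + ε) * r * v.re - c0 / 2 * v.im ^ 2 := by
    nlinarith
  have h7 : (3 * C0 + ε) * r * v.re ≤ 1 / 2 * v.re := mul_le_mul_of_nonneg_right hr hv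
  have h8 : t * ((ω.re * (v.re ^ 2 - v.im ^ 2) - 2 * ω.im * (v.re * v.im)) + ε * (v.re ^ 2 + v.im ^ 2))
      ≤ t * (1 / 2 * v.re - c0 / 2 * v.im ^ 2) := mul_le_mul_of_nonneg_left (h6.trans (by linarith)) ht.le
  have h9 : t * (1 / 2 * v.re) ≤ 1 / 2 * v.re := by nlinarith
  have h10 : 0 < v.re / 2 + t * (c0 / 2 * v.im ^ 2) := by
    rcases lt_or_eq_of_le hv with h | h
    · have : 0 ≤ t * (c0 / 2 * v.im ^ 2) := by positivity
      linarith
    · have him : v.im ≠ 0 := by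
        intro h0; apply hv0; exact Complex.ext (by simpa using h.symm) (by simpa using h0)
      have : 0 < v.im ^ 2 := by positivity
      have : 0 < t * (c0 / 2 * v.im ^ 2) := by positivity
      linarith
  nlinarith

end
end Pool.Agent.H68.OW
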