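import Pool.Agent.H68.OW.OW5

set_option autoImplicit false
open Complex Filter Topology Set Metric

namespace Pool.Agent.H68.OW

noncomputable section

def om1 (G : ℝ → ℂ → ℂ) (c K σ : ℝ) (κ ζ : ℂ) (p : ℝ × ℂ) : ℂ :=
  (tipz K ζ σ p.1 / ζ) * BB c K κ ζ * (2 + K + up K σ p.1 + p.2) /
    (DD K (up K σ p.1) * DD K p.2 * ((p.1 : ℂ) * deriv (G p.1) (tipz K ζ σ p.1)))

lemma tendsto_om1 {G E : ℝ → ℂ → ℂ} {c K σ : ℝ} {κ ζ : ℂ} {r0 C : ℝ} (hT : TipData E ζ r0 C)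
    (hc : 0 < c) (hK : 0 < K) (hζ : ‖ζ‖ = 1) (hκ : ‖κ‖ = 1)
    (hG : ∀ δ z, G δ z = E δ z + c * κ * bmp K δ (z / ζ)) :
    Tendsto (om1 G c K σ κ ζ) (𝓝[>] 0 ×ˢ 𝓝 (uu K σ))
      (𝓝 ((2 + K + uu K σ + uu K σ) / DD K (uu K σ))) := by
  have hu0 : 0 ≤ (uu K σ).re := by unfold uu; simp
  have hD := DD_ne hK hu0
  have hB := BB_ne hc hK hκ hζ
  have hζ0 : ζ ≠ 0 := by rintro rfl; simp at hζ
  have f1 : Tendsto (fun p : ℝ × ℂ => p.1) (𝓝[>] 0 ×ˢ 𝓝 (uu K σ)) (𝓝[>] 0) := tendsto_fst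
  have f2 : Tendsto (fun p : ℝ × ℂ => p.2) (𝓝[>] 0 ×ˢ 𝓝 (uu K σ)) (𝓝 (uu K σ)) := tendsto_snd
  have t1 := ((tendsto_tipz K σ ζ).comp f1).div_const ζ
  have t2 := (tendsto_up K σ).comp f1
  have t3 := (tendsto_dG (σ := σ) hT hK hζ hG).comp f1
  have cD := (hasDerivAt_DD K (uu K σ)).continuousAt.tendsto
  have t4 := cD.comp t2
  have t5 := cD.comp f2
  have num := (t1.mul_const (BB c K κ ζ)).mul ((t2.const_add (2 + (K:ℂ))).add f2)
  have den := (t4.mul t5).mul t3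
  have h := num.div den (mul_ne_zero (mul_ne_zero hD hD) (div_ne_zero hB hD))
  have e : ζ / ζ * BB c K κ ζ * (2 + K + uu K σ + uu K σ) /
      (DD K (uu K σ) * DD K (uu K σ) * (BB c K κ ζ / DD K (uu K σ))) =
      (2 + K + uu K σ + uu K σ) / DD K (uu K σ) := by
    field_simp
  rw [e] at h
  exact h

set_option maxHeartbeats 1000000 in
lemma tip_local {G E : ℝ → ℂ → ℂ} {c K σ : ℝ} {κ ζ : ℂ} {r0 C : ℝ} (hT : TipData E ζ r0 C)
    (hc : 0 < c) (hK : 0 < K) (hσ : σ = 1 ∨ σ = -1) (hζ : ‖ζ‖ = 1) (hκ : ‖κ‖ = 1)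
    (hG : ∀ δ z, G δ z = E δ z + c * κ * bmp K δ (z / ζ)) :
    ∃ ρ > 0, ∀ᶠ δ : ℝ in 𝓝[>] (0:ℝ), ∀ z : ℂ, ‖z‖ ≤ 1 → ‖(1 - z / ζ) / (δ:ℂ) - uu K σ‖ < ρ → z ≠ tipz K ζ σ δ →
      (starRingEnd ℂ (kap (G δ) (tipz K ζ σ δ)) * (G δ z - G δ (tipz K ζ σ δ))).re < 0 := by
  have hu0 : 0 ≤ (uu K σ).re := by unfold uu; simp
  have hD := DD_ne hK hu0
  have hB := BB_ne hc hK hκ hζ
  have hζ0 : ζ ≠ 0 := by rintro rfl; simp at hζ
  set ω0 := (2 + K + uu K σ + uu K σ) / DD K (uu K σ) with hω0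
  have hre0 : ω0.re = 2 / (2 + K) := om_re hK hσ
  set c0 : ℝ := 1 / (2 + K) with hc0
  have hc0p : 0 < c0 := by positivity
  have hlim := tendsto_om1 (σ := σ) hT hc hK hζ hκ hG
  have hP : ∀ᶠ p in 𝓝[>] (0:ℝ) ×ˢ 𝓝 (uu K σ), c0 ≤ (om1 G c K σ κ ζ p).re ∧ ‖om1 G c K σ κ ζ p‖ ≤ ‖ω0‖ + 1 := by
    have h1 := (Complex.continuous_re.tendsto _).comp hlim
    rw [← hω0, hre0] at h1
    have h2 : c0 < 2 / (2 + K) := by
      rw [hc0]; apply div_lt_div_of_pos_right _ (by linarith); norm_num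
    have h3 := hlim.norm.eventually (gt_mem_nhds (show ‖ω0‖ < ‖ω0‖ + 1 by linarith))
    filter_upwards [h1.eventually (lt_mem_nhds h2), h3] with p h4 h5
    exact ⟨h4.le, h5.le⟩
  rw [eventually_prod_iff] at hP
  obtain ⟨pa, hpa, pb, hpb, hab⟩ := hP
  obtain ⟨ρ1, hρ1, hρ1b⟩ := Metric.eventually_nhds_iff.1 hpb
  set C0 := ‖ω0‖ + 1 with hC0
  have hC0p : 0 < C0 := by positivity
  set ε := c0 / 2 with hε
  have hεp : 0 < ε := by positivity
  set r := 1 / (2 * (3 * C0 + ε)) with hr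
  have hrp : 0 < r := by positivity
  set ρ := min ρ1 (r / 2) with hρ
  have hρp : 0 < ρ := lt_min hρ1 (by linarith)
  refine ⟨ρ, hρp, ?_⟩
  -- eventual conditions
  have hpos : ∀ᶠ δ : ℝ in 𝓝[>] (0:ℝ), 0 < δ := eventually_mem_nhdsWithin
  have hlt : ∀ᶠ δ : ℝ in 𝓝[>] (0:ℝ), δ < r0 :=
    (tendsto_id.mono_left nhdsWithin_le_nhds).eventually (gt_mem_nhds hT.r0pos)
  have hlt2 : ∀ᶠ δ : ℝ in 𝓝[>] (0:ℝ), δ * (‖uu K σ‖ + ρ) < r0 := by
    have : Tendsto (fun δ : ℝ => δ * (‖uu K σ‖ + ρ)) (𝓝[>] 0) (𝓝 (0 * (‖uu K σ‖ + ρ))) :=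
      (tendsto_id.mono_left nhdsWithin_le_nhds).mul_const _
    rw [zero_mul] at this
    exact this.eventually (gt_mem_nhds hT.r0pos)
  have hupc : ∀ᶠ δ : ℝ in 𝓝[>] (0:ℝ), ‖up K σ δ - uu K σ‖ < ρ := by
    have h1 := (tendsto_iff_norm_sub_tendsto_zero.1 (tendsto_up K σ))
    exact h1.eventually (gt_mem_nhds hρp)
  have hdn := tip_dne (σ := σ) hT hc hK hζ hκ hG
  have hXl := tendsto_dG (σ := σ) hT hK hζ hG
  have hX0 : BB c K κ ζ / DD K (uu K σ) ≠ 0 := div_ne_zero hB hD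
  have hsmall : ∀ᶠ δ : ℝ in 𝓝[>] (0:ℝ), C * δ ^ 2 / ‖(δ : ℂ) * deriv (G δ) (tipz K ζ σ δ)‖ < ε := by
    have h1 : Tendsto (fun δ : ℝ => C * δ ^ 2) (𝓝[>] 0) (𝓝 (C * 0 ^ 2)) :=
      ((tendsto_id.mono_left nhdsWithin_le_nhds).pow 2).const_mul C
    have h2 := h1.div hXl.norm (by simpa using hX0)
    simp only [ne_eq, OfNat.ofNat_ne_zero, not_false_eq_true, zero_pow, mul_zero, zero_div] at h2
    exact h2.eventually (gt_mem_nhds hεp)
  filter_upwards [hpos, hlt, hlt2, hupc, hdn, hsmall, hpa] with δ hδ hδ1 hδ2 hδ3 hδ4 hδ5 hδ6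
  intro z hz hzu hzne
  have hδc : (δ : ℂ) ≠ 0 := by exact_mod_cast hδ.ne'
  set ζ' := tipz K ζ σ δ with hζ'
  have hζ'n : ‖ζ'‖ = 1 := norm_tipz hζ σ δ
  have hζ'0 : ζ' ≠ 0 := by intro h; rw [h] at hζ'n; simp at hζ'n
  set u' := up K σ δ with hu'
  have hu'e : (1 - ζ' / ζ) / δ = u' := tipz_div hζ
  set u := (1 - z / ζ) / δ with hu
  set v := (1 - z / ζ') / δ with hv
  have hv0 : v ≠ 0 := by
    intro h
    apply hzne
    rw [hv, div_eq_zero_iff] at h
    rcases h with h | h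
    · have : z / ζ' = 1 := by linear_combination -h
      rwa [div_eq_one_iff_eq hζ'0] at this
    · exact absurd h hδc
  have hvre : 0 ≤ v.re := by
    rw [hv, Complex.div_ofReal_re]
    apply div_nonneg _ hδ.le
    simp only [Complex.sub_re, Complex.one_re]
    have h := Complex.re_le_norm (z / ζ')
    rw [norm_div, hζ'n, div_one] at h
    linarith
  have huv : u - u' = (ζ' / ζ) * v := by
    rw [← hu'e, hu, hv]; field_simp; ring
  have hvn : ‖v‖ ≤ r := by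
    have h1 : ‖v‖ = ‖u - u'‖ := by rw [huv, norm_mul, norm_div ζ' ζ, hζ'n, hζ]; simp
    rw [h1]
    calc ‖u - u'‖ = ‖(u - uu K σ) - (u' - uu K σ)‖ := by congr 1; ring
      _ ≤ ‖u - uu K σ‖ + ‖u' - uu K σ‖ := norm_sub_le _ _
      _ ≤ r / 2 + r / 2 := by
          have a1 : ρ ≤ r / 2 := min_le_right _ _
          linarith
      _ = r := by ring
  set X := (δ : ℂ) * deriv (G δ) ζ' with hX
  have hXne : X ≠ 0 := mul_ne_zero hδc hδ4
  have hu're : 0 ≤ u'.re := by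
    rw [← hu'e, Complex.div_ofReal_re]
    apply div_nonneg _ hδ.le
    have := tipz_div_re (K := K) (σ := σ) (δ := δ) hζ
    simp only [Complex.sub_re, Complex.one_re]; linarith
  -- path
  let Z : ℝ → ℂ := fun t => ζ' + t * (z - ζ')
  have hZ1 : ∀ t ∈ Icc (0:ℝ) 1, ‖Z t‖ ≤ 1 := by
    intro t ht
    have : Z t = (((1 - t : ℝ)) : ℂ) * ζ' + ((t : ℝ) : ℂ) * z := by simp only [Z]; push_cast; ring
    rw [this]
    calc _ ≤ ‖(((1 - t : ℝ)) : ℂ) * ζ'‖ + ‖((t : ℝ) : ℂ) * z‖ := norm_add_le _ _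
      _ = (1 - t) * 1 + t * ‖z‖ := by
          rw [norm_mul, norm_mul, Complex.norm_real, Complex.norm_real, hζ'n, Real.norm_eq_abs,
            Real.norm_eq_abs, abs_of_nonneg (by linarith [ht.2]), abs_of_nonneg ht.1]
      _ ≤ 1 := by nlinarith [ht.1]
  have hZre : ∀ t ∈ Icc (0:ℝ) 1, (Z t / ζ).re ≤ 1 := by
    intro t ht
    have h := Complex.re_le_norm (Z t / ζ)
    rw [norm_div, hζ, div_one] at h
    exact h.trans (hZ1 t ht)
  have hZu : ∀ t : ℝ, (1 - Z t / ζ) / δ = u' + t * (u - u') := by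
    intro t
    rw [← hu'e, hu]
    simp only [Z]
    field_simp
    ring
  have hZuball : ∀ t ∈ Icc (0:ℝ) 1, ‖(1 - Z t / ζ) / δ - uu K σ‖ < ρ := by
    intro t ht
    rw [hZu]
    have : u' + t * (u - u') - uu K σ = (((1 - t : ℝ)) : ℂ) * (u' - uu K σ) + ((t : ℝ) : ℂ) * (u - uu K σ) := by
      push_cast; ring
    rw [this]
    calc _ ≤ ‖(((1 - t : ℝ)) : ℂ) * (u' - uu K σ)‖ + ‖((t : ℝ) : ℂ) * (u - uu K σ)‖ := norm_add_le _ _
      _ = (1 - t) * ‖u' - uu K σ‖ + t * ‖u - uu K σ‖ := by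
          rw [norm_mul, norm_mul, Complex.norm_real, Complex.norm_real, Real.norm_eq_abs,
            Real.norm_eq_abs, abs_of_nonneg (by linarith [ht.2]), abs_of_nonneg ht.1]
      _ < ρ := by
          rcases eq_or_lt_of_le ht.1 with h | h
          · rw [← h]; simpa using hδ3
          · have a1 : t * ‖u - uu K σ‖ < t * ρ := mul_lt_mul_of_pos_left hzu h
            have a2 : (1 - t) * ‖u' - uu K σ‖ ≤ (1 - t) * ρ :=
              mul_le_mul_of_nonneg_left hδ3.le (by linarith [ht.2])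
            linarith
  have hZball : ∀ t ∈ Icc (0:ℝ) 1, Z t ∈ ball ζ r0 := by
    intro t ht
    rw [mem_ball_iff_norm]
    have h1 : Z t - ζ = -(ζ * (δ * ((1 - Z t / ζ) / δ))) := by field_simp; ring
    rw [h1, norm_neg, norm_mul, norm_mul, hζ, one_mul, Complex.norm_real, Real.norm_eq_abs, abs_of_pos hδ]
    refine lt_of_le_of_lt ?_ hδ2
    apply mul_le_mul_of_nonneg_left _ hδ.le
    have h2 := norm_add_le ((1 - Z t / ζ) / δ - uu K σ) (uu K σ)
    rw [sub_add_cancel] at h2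
    linarith [hZuball t ht]
  have hZdG : ∀ t ∈ Icc (0:ℝ) 1, HasDerivAt (G δ) (deriv (E δ) (Z t) + BB c K κ ζ / (δ * DD K ((1 - Z t / ζ) / δ))) (Z t) := by
    intro t ht
    exact hasDerivAt_G hK hζ hG hδ ((hT.diff δ hδ hδ1).differentiableAt (isOpen_ball.mem_nhds (hZball t ht)))
      (by linarith [hZre t ht])
  have hZ0 : Z 0 = ζ' := by simp only [Z]; simp
  have hZ1' : Z 1 = z := by simp only [Z]; simp
  have hXe : X = δ * deriv (E δ) ζ' + BB c K κ ζ / DD K u' := by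
    have h1 := (hZdG 0 (left_mem_Icc.2 zero_le_one)).deriv
    rw [hZ0, hu'e] at h1
    rw [hX, h1]
    have := DD_ne hK hu're
    field_simp
  let g : ℝ → ℝ := fun t => (starRingEnd ℂ (kap (G δ) ζ') * G δ (Z t)).re
  have hZd : ∀ t : ℝ, HasDerivAt Z (z - ζ') t := by
    intro t
    have h4 : HasDerivAt (fun t : ℝ => (t : ℂ)) 1 t := Complex.ofRealCLM.hasDerivAt
    have := (h4.mul_const (z - ζ')).const_add ζ'
    rw [one_mul] at this
    exact this
  have hgd : ∀ t ∈ Icc (0:ℝ) 1, HasDerivAt g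
      ((starRingEnd ℂ (kap (G δ) ζ') * (deriv (G δ) (Z t) * (z - ζ'))).re) t := by
    intro t ht
    have h6 : HasDerivAt (fun t => G δ (Z t)) (deriv (G δ) (Z t) * (z - ζ')) t :=
      (hZdG t ht).differentiableAt.hasDerivAt.comp t (hZd t)
    have h7 := (h6.const_mul (starRingEnd ℂ (kap (G δ) ζ')))
    exact (Complex.reCLM.hasFDerivAt.comp_hasDerivAt t h7)
  have hgneg : ∀ t ∈ Ioo (0:ℝ) 1,
      (starRingEnd ℂ (kap (G δ) ζ') * (deriv (G δ) (Z t) * (z - ζ'))).re < 0 := by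
    intro t ht
    have ht' : t ∈ Icc (0:ℝ) 1 := ⟨ht.1.le, ht.2.le⟩
    set w := (1 - Z t / ζ) / δ with hw
    have hwre : 0 ≤ w.re := by
      rw [hw, Complex.div_ofReal_re]
      apply div_nonneg _ hδ.le
      have := hZre t ht'
      simp only [Complex.sub_re, Complex.one_re]; linarith
    have hDw := DD_ne hK hwre
    have hDu' := DD_ne hK hu're
    have hwu : w - u' = t * ((ζ' / ζ) * v) := by
      rw [hw, hZu, huv]; ring
    have hdG : (δ : ℂ) * deriv (G δ) (Z t) = δ * deriv (E δ) (Z t) + BB c K κ ζ / DD K w := by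
      rw [(hZdG t ht').deriv, ← hw]
      field_simp
    have hck := conj_kap_mul (F := G δ) hζ'n hδ4
    have hzz : z - ζ' = -(δ * ζ' * v) := by rw [hv]; field_simp; ring
    have hgoal : starRingEnd ℂ (kap (G δ) ζ') * (deriv (G δ) (Z t) * (z - ζ'))
        = -(((δ * ‖deriv (G δ) ζ'‖ : ℝ) : ℂ) * (v * ((δ : ℂ) * deriv (G δ) (Z t)) / X)) := by
      rw [hzz, hX]
      calc _ = -((starRingEnd ℂ (kap (G δ) ζ') * ζ') * (δ * v * deriv (G δ) (Z t))) := by ring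
        _ = _ := by
          rw [hck]; push_cast; field_simp
    rw [hgoal, Complex.neg_re, Complex.re_ofReal_mul]
    have hratio : v * ((δ : ℂ) * deriv (G δ) (Z t)) / X
        = (v - t * om1 G c K σ κ ζ (δ, w) * v ^ 2) + v * (δ * (deriv (E δ) (Z t) - deriv (E δ) ζ')) / X := by
      rw [hdG]
      have hom : om1 G c K σ κ ζ (δ, w) * X = (ζ' / ζ) * BB c K κ ζ * (2 + K + u' + w) / (DD K u' * DD K w) := by
        unfold om1
        simp only
        rw [← hζ', ← hX, ← hu']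
        field_simp
      have hDD : DD K w - DD K u' = (w - u') * (2 + K + u' + w) := by unfold DD; ring
      have e1 : BB c K κ ζ / DD K w = X - δ * deriv (E δ) ζ' - t * v * (om1 G c K σ κ ζ (δ, w) * X) := by
        rw [hom, hXe]
        have e2 : BB c K κ ζ / DD K w - BB c K κ ζ / DD K u' = - (BB c K κ ζ * (DD K w - DD K u') / (DD K u' * DD K w)) := by
          field_simp; ring
        rw [hDD, hwu] at e2
        linear_combination e2
      rw [e1]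
      field_simp
      ring
    rw [hratio, Complex.add_re]
    have hab' := hab hδ6 (hρ1b (show dist w (uu K σ) < ρ1 by
      rw [dist_eq_norm]; exact lt_of_lt_of_le (hZuball t ht') (min_le_left _ _)))
    have halg := alg_ineq (v := v) (ω := om1 G c K σ κ ζ (δ, w)) (t := t) (c0 := c0) (C0 := C0) (r := r) (ε := ε)
      hvre hv0 hvn ht.1 ht.2.le hab'.1 hab'.2 hεp.le (le_refl _) hc0p (by
        rw [hr]; apply le_of_eq; field_simp)
    have herr : -(ε * t * ‖v‖ ^ 2) ≤ (v * (δ * (deriv (E δ) (Z t) - deriv (E δ) ζ')) / X).re := by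
      have h1 := Complex.abs_re_le_norm (v * (δ * (deriv (E δ) (Z t) - deriv (E δ) ζ')) / X)
      have h2 : ‖deriv (E δ) (Z t) - deriv (E δ) ζ'‖ ≤ C * (t * δ * ‖v‖) := by
        have hdE := (hT.diff δ hδ hδ1).deriv isOpen_ball
        have h3 := Convex.norm_image_sub_le_of_norm_deriv_le (f := deriv (E δ)) (C := C) (s := ball ζ r0)
          (x := ζ') (y := Z t) (fun x hx => hdE.differentiableAt (isOpen_ball.mem_nhds hx))
          (fun x hx => hT.b2 δ hδ hδ1 x hx) (convex_ball _ _)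
          (by have := hZball 0 (left_mem_Icc.2 zero_le_one); rwa [hZ0] at this) (hZball t ht')
        refine h3.trans (le_of_eq ?_)
        congr 1
        have : Z t - ζ' = -(t * δ * (ζ' * v)) := by simp only [Z]; rw [hzz]; ring
        rw [this, norm_neg, norm_mul, norm_mul, norm_mul, hζ'n, one_mul, Complex.norm_real, Complex.norm_real,
          Real.norm_eq_abs, Real.norm_eq_abs, abs_of_pos ht.1, abs_of_pos hδ]
      have h4 : ‖v * (δ * (deriv (E δ) (Z t) - deriv (E δ) ζ')) / X‖ ≤ ε * t * ‖v‖ ^ 2 := by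
        rw [norm_div, norm_mul, norm_mul, Complex.norm_real, Real.norm_eq_abs, abs_of_pos hδ]
        have hXn : 0 < ‖X‖ := norm_pos_iff.2 hXne
        calc ‖v‖ * (δ * ‖deriv (E δ) (Z t) - deriv (E δ) ζ'‖) / ‖X‖
            ≤ ‖v‖ * (δ * (C * (t * δ * ‖v‖))) / ‖X‖ := by
              apply div_le_div_of_nonneg_right _ hXn.le
              apply mul_le_mul_of_nonneg_left _ (norm_nonneg _)
              exact mul_le_mul_of_nonneg_left h2 hδ.le
          _ = (C * δ ^ 2 / ‖X‖) * (t * ‖v‖ ^ 2) := by field_simp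
          _ ≤ ε * (t * ‖v‖ ^ 2) := by
              apply mul_le_mul_of_nonneg_right hδ5.le
              have := ht.1
              positivity
          _ = ε * t * ‖v‖ ^ 2 := by ring
      linarith [(abs_le.1 (h1.trans h4)).1]
    have hfac : 0 < δ * ‖deriv (G δ) ζ'‖ := mul_pos hδ (norm_pos_iff.2 hδ4)
    have hsum : 0 < (v - t * om1 G c K σ κ ζ (δ, w) * v ^ 2).re + (v * (δ * (deriv (E δ) (Z t) - deriv (E δ) ζ')) / X).re := by
      linarith
    have := mul_pos hfac hsum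
    linarith
  have hcont : ContinuousOn g (Icc 0 1) := fun t ht => (hgd t ht).continuousAt.continuousWithinAt
  have hanti : StrictAntiOn g (Icc 0 1) := by
    apply strictAntiOn_of_deriv_neg (convex_Icc 0 1) hcont
    intro t ht
    rw [interior_Icc] at ht
    have ht' : t ∈ Icc (0:ℝ) 1 := ⟨ht.1.le, ht.2.le⟩
    rw [(hgd t ht').deriv]
    exact hgneg t ht
  have h01 := hanti (left_mem_Icc.2 zero_le_one) (right_mem_Icc.2 zero_le_one) zero_lt_one
  simp only [g] at h01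
  rw [hZ0, hZ1'] at h01
  rw [mul_sub, Complex.sub_re]
  linarith

end
end Pool.Agent.H68.OW
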