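import Pool.Agent.H68.OW.OW6

set_option autoImplicit false
open Complex Filter Topology Set Metric

namespace Pool.Agent.H68.OW

noncomputable section

/-- family with derivative `O(δ)` near `z0` -/
def Small (f : ℝ → ℂ → ℂ) (z0 : ℂ) : Prop :=
  ∃ r > 0, ∃ C ≥ 0, ∀ δ : ℝ, 0 < δ → δ < r → ∀ z ∈ ball z0 r,
    DifferentiableAt ℂ (f δ) z ∧ ‖deriv (f δ) z‖ ≤ C * δ

lemma Small.const_mul {f : ℝ → ℂ → ℂ} {z0 : ℂ} (h : Small f z0) (a : ℂ) :
    Small (fun δ z => a * f δ z) z0 := by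
  obtain ⟨r, hr, C, hC, h⟩ := h
  refine ⟨r, hr, ‖a‖ * C, by positivity, fun δ hδ hδr z hz => ?_⟩
  obtain ⟨h1, h2⟩ := h δ hδ hδr z hz
  refine ⟨h1.const_mul a, ?_⟩
  rw [deriv_const_mul _ h1, norm_mul, mul_assoc]
  exact mul_le_mul_of_nonneg_left h2 (norm_nonneg _)

lemma Small.add {f g : ℝ → ℂ → ℂ} {z0 : ℂ} (hf : Small f z0) (hg : Small g z0) :
    Small (fun δ z => f δ z + g δ z) z0 := by
  obtain ⟨r, hr, C, hC, h⟩ := hf
  obtain ⟨r', hr', C', hC', h'⟩ := hg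
  refine ⟨min r r', lt_min hr hr', C + C', by positivity, fun δ hδ hδr z hz => ?_⟩
  obtain ⟨h1, h2⟩ := h δ hδ (lt_of_lt_of_le hδr (min_le_left _ _)) z
    (ball_subset_ball (min_le_left _ _) hz)
  obtain ⟨h3, h4⟩ := h' δ hδ (lt_of_lt_of_le hδr (min_le_right _ _)) z
    (ball_subset_ball (min_le_right _ _) hz)
  refine ⟨h1.add h3, ?_⟩
  have : deriv (fun z => f δ z + g δ z) z = deriv (f δ) z + deriv (g δ) z := deriv_add h1 h3
  rw [this]
  calc _ ≤ ‖deriv (f δ) z‖ + ‖deriv (g δ) z‖ := norm_add_le _ _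
    _ ≤ _ := by rw [add_mul]; exact add_le_add h2 h4

lemma Small.zero (z0 : ℂ) : Small (fun _ _ => 0) z0 := by
  refine ⟨1, one_pos, 0, le_refl _, fun δ hδ hδr z hz => ?_⟩
  refine ⟨differentiableAt_const _, ?_⟩
  simp

lemma Small.sum {κ : Type*} (s : Finset κ) {f : κ → ℝ → ℂ → ℂ} {z0 : ℂ} (h : ∀ q ∈ s, Small (f q) z0) :
    Small (fun δ z => ∑ q ∈ s, f q δ z) z0 := by
  classical
  induction s using Finset.induction_on with
  | empty => simpa using Small.zero z0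
  | insert a s ha ih =>
    have h1 := ih (fun q hq => h q (Finset.mem_insert_of_mem hq))
    have h2 := h a (Finset.mem_insert_self _ _)
    have := h2.add h1
    simpa [Finset.sum_insert ha] using this

lemma re_lt_one_of_ne {ω : ℂ} (hω : ‖ω‖ ≤ 1) (h1 : ω ≠ 1) : ω.re < 1 := by
  rcases lt_or_eq_of_le ((Complex.re_le_norm ω).trans hω) with h | h
  · exact h
  · exfalso; apply h1
    have h2 : ω.re ^ 2 + ω.im ^ 2 ≤ 1 := by
      have := Complex.sq_norm ω
      rw [Complex.normSq_apply] at this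
      nlinarith [norm_nonneg ω]
    have h3 : ω.im = 0 := by nlinarith
    exact Complex.ext (by simpa using h) (by simpa using h3)

lemma small_bmp {K : ℝ} (hK : 0 < K) {z0 ζ1 : ℂ} (hz0 : ‖z0‖ ≤ 1) (hζ1 : ‖ζ1‖ = 1) (hne : z0 ≠ ζ1) :
    Small (fun δ z => bmp K δ (z / ζ1)) z0 := by
  have hζ0 : ζ1 ≠ 0 := by rintro rfl; simp at hζ1
  have hw : (z0 / ζ1).re < 1 := by
    apply re_lt_one_of_ne
    · rw [norm_div, hζ1, div_one]; exact hz0
    · intro h; exact hne ((div_eq_one_iff_eq hζ0).1 h)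
  set g := 1 - (z0 / ζ1).re with hg
  have hgp : 0 < g := by linarith
  have hL := logK_pos hK
  refine ⟨g / 2, by linarith, K / Real.log (1 + K) / (g ^ 2 / 4), by positivity, fun δ hδ hδr z hz => ?_⟩
  rw [mem_ball_iff_norm] at hz
  have hzre : (z / ζ1).re ≤ 1 - g / 2 := by
    have h1 : (z / ζ1).re - (z0 / ζ1).re ≤ g / 2 := by
      rw [← Complex.sub_re, ← sub_div]
      have h2 := Complex.re_le_norm ((z - z0) / ζ1)
      rw [norm_div, hζ1, div_one] at h2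
      linarith
    linarith
  have hd := (hasDerivAt_bmp hK hδ (show (z / ζ1).re < 1 + δ by linarith)).comp z
    ((hasDerivAt_id z).div_const ζ1)
  refine ⟨hd.differentiableAt, ?_⟩
  have hd' : deriv (fun z => bmp K δ (z / ζ1)) z = _ := hd.deriv
  rw [hd', norm_mul, norm_div (1:ℂ), hζ1, norm_one, div_one, mul_one, norm_div, norm_mul]
  have e1 : g / 2 ≤ ‖(((1 + δ : ℝ) : ℂ)) - z / ζ1‖ := by
    refine le_trans ?_ (Complex.re_le_norm _)
    simp only [Complex.sub_re, Complex.ofReal_re]; linarith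
  have e2 : g / 2 ≤ ‖(((1 + δ + K * δ : ℝ) : ℂ)) - z / ζ1‖ := by
    refine le_trans ?_ (Complex.re_le_norm _)
    have := mul_pos hK hδ
    simp only [Complex.sub_re, Complex.ofReal_re]; linarith
  have e3 : ‖((K * δ : ℝ) : ℂ) / ((Real.log (1 + K) : ℝ) : ℂ)‖ = K * δ / Real.log (1 + K) := by
    rw [norm_div, Complex.norm_real, Complex.norm_real, Real.norm_eq_abs, Real.norm_eq_abs,
      abs_of_pos (mul_pos hK hδ), abs_of_pos hL]
  simp only [id] at *
  rw [e3]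
  have e4 : g ^ 2 / 4 ≤ ‖(((1 + δ : ℝ) : ℂ)) - z / ζ1‖ * ‖(((1 + δ + K * δ : ℝ) : ℂ)) - z / ζ1‖ := by
    calc g ^ 2 / 4 = g / 2 * (g / 2) := by ring
      _ ≤ _ := mul_le_mul e1 e2 (by linarith) (norm_nonneg _)
  calc K * δ / Real.log (1 + K) / (‖(((1 + δ : ℝ) : ℂ)) - z / ζ1‖ * ‖(((1 + δ + K * δ : ℝ) : ℂ)) - z / ζ1‖)
      ≤ K * δ / Real.log (1 + K) / (g ^ 2 / 4) := by
        apply div_le_div_of_nonneg_left (by positivity) (by positivity) e4
    _ = _ := by ring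

set_option linter.unusedSectionVars false
variable {ι : Type} [Fintype ι] [DecidableEq ι]

/-- the new map -/
def GG (F : ℂ → ℂ) (ζ : ι → ℂ) (c K δ : ℝ) (z : ℂ) : ℂ :=
  F z + ∑ q, c * kap F (ζ q) * bmp K δ (z / ζ q)

/-- everything except tip `q` -/
def OO (F : ℂ → ℂ) (ζ : ι → ℂ) (c K : ℝ) (q : ι) (δ : ℝ) (z : ℂ) : ℂ :=
  ∑ q' ∈ Finset.univ.erase q, c * kap F (ζ q') * bmp K δ (z / ζ q')

lemma GG_eq (F : ℂ → ℂ) (ζ : ι → ℂ) (c K δ : ℝ) (q : ι) (z : ℂ) :
    GG F ζ c K δ z = (F z + OO F ζ c K q δ z) + c * kap F (ζ q) * bmp K δ (z / ζ q) := by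
  unfold GG OO
  rw [← Finset.sum_erase_add _ _ (Finset.mem_univ q)]
  ring

/-- hypotheses on the configuration -/
structure Conf (F : ℂ → ℂ) (ζ : ι → ℂ) (R c K : ℝ) : Prop where
  hR : 1 < R
  an : DifferentiableOn ℂ F (ball 0 R)
  inj : InjOn F (closedBall 0 1)
  dne : ∀ z ∈ closedBall (0:ℂ) 1, deriv F z ≠ 0
  unit : ∀ q, ‖ζ q‖ = 1
  conv : ∀ q, 0 ≤ (ζ q * deriv (deriv F) (ζ q) / deriv F (ζ q)).re
  zinj : Function.Injective ζ
  hc : 0 < c
  hK : 0 < K
  cig1 : ∀ z ∈ closedBall (0:ℂ) 1, ∀ q, ∀ s ∈ closedBall (1/2 : ℂ) (1/2),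
    F z = F (ζ q) + c * kap F (ζ q) * psi K s → z = ζ q
  cig2 : ∀ q q', ∀ s ∈ closedBall (1/2 : ℂ) (1/2), ∀ s' ∈ closedBall (1/2 : ℂ) (1/2),
    F (ζ q) + c * kap F (ζ q) * psi K s = F (ζ q') + c * kap F (ζ q') * psi K s' → q = q'

variable {F : ℂ → ℂ} {ζ : ι → ℂ} {R c K : ℝ}

lemma Conf.mem (h : Conf F ζ R c K) (q : ι) : ζ q ∈ closedBall (0:ℂ) 1 := by
  rw [mem_closedBall_zero_iff, h.unit q]

lemma Conf.ball_mem (h : Conf F ζ R c K) {z : ℂ} (hz : z ∈ closedBall (0:ℂ) 1) : z ∈ ball (0:ℂ) R := by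
  rw [mem_closedBall_zero_iff] at hz
  rw [mem_ball_zero_iff]; linarith [h.hR]

lemma Conf.small (h : Conf F ζ R c K) (q : ι) : Small (OO F ζ c K q) (ζ q) := by
  unfold OO
  apply Small.sum
  intro q' hq'
  apply Small.const_mul
  apply small_bmp h.hK (h.unit q).le (h.unit q')
  intro he
  exact (Finset.ne_of_mem_erase hq') (h.zinj he).symm

lemma loc_nontip (h : Conf F ζ R c K) {x : ℂ} (hx : x ∈ closedBall (0:ℂ) 1) (hnt : ∀ q, ζ q ≠ x) :
    ∃ r > 0, ∀ δ : ℝ, 0 < δ → δ < r → InjOn (GG F ζ c K δ) (closedBall 0 1 ∩ ball x r) ∧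
      ∀ z ∈ closedBall 0 1 ∩ ball x r, deriv (GG F ζ c K δ) z ≠ 0 := by
  have hS : Small (fun δ z => ∑ q, c * kap F (ζ q) * bmp K δ (z / ζ q)) x := by
    apply Small.sum
    intro q _
    apply Small.const_mul
    exact small_bmp h.hK (by simpa using hx) (h.unit q) (fun he => hnt q he.symm)
  obtain ⟨r1, hr1, C, hC, hS⟩ := hS
  have hxR : ball (0:ℂ) R ∈ 𝓝 x := isOpen_ball.mem_nhds (h.ball_mem hx)
  have hFc : ContinuousAt (deriv F) x := ((h.an.deriv isOpen_ball).differentiableAt hxR).continuousAt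
  have hd0 : 0 < ‖deriv F x‖ := norm_pos_iff.2 (h.dne x hx)
  set N := ‖deriv F x‖ with hN
  have hev : ∀ᶠ z in 𝓝 x, ‖deriv F z - deriv F x‖ < N / 4 ∧ z ∈ ball (0:ℂ) R := by
    have h1 : Tendsto (fun z => ‖deriv F z - deriv F x‖) (𝓝 x) (𝓝 0) := by
      have := tendsto_iff_norm_sub_tendsto_zero.1 hFc.tendsto
      exact this
    filter_upwards [h1.eventually (gt_mem_nhds (show (0:ℝ) < N / 4 by linarith)), hxR] with z h2 h3
    exact ⟨h2, h3⟩
  obtain ⟨r2, hr2, hr2b⟩ := Metric.eventually_nhds_iff_ball.1 hev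
  set r := min (min r1 r2) (N / (4 * (C + 1))) with hr
  have hrp : 0 < r := lt_min (lt_min hr1 hr2) (by positivity)
  have hrr1 : r ≤ r1 := (min_le_left _ _).trans (min_le_left _ _)
  have hrr2 : r ≤ r2 := (min_le_left _ _).trans (min_le_right _ _)
  have hrr3 : r ≤ N / (4 * (C + 1)) := min_le_right _ _
  refine ⟨r, hrp, fun δ hδ hδr => ?_⟩
  have hCδ : C * δ ≤ N / 4 := by
    have h1 : (C + 1) * δ ≤ (C + 1) * (N / (4 * (C + 1))) :=
      mul_le_mul_of_nonneg_left (hδr.le.trans hrr3) (by linarith)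
    have h2 : (C + 1) * (N / (4 * (C + 1))) = N / 4 := by field_simp
    have h3 : (C + 1) * δ = C * δ + δ := by ring
    linarith
  have hGd : ∀ z ∈ ball x r, HasDerivAt (GG F ζ c K δ) (deriv F z +
      deriv (fun z => ∑ q, c * kap F (ζ q) * bmp K δ (z / ζ q)) z) z := by
    intro z hz
    have h1 := (hS δ hδ (by linarith) z (ball_subset_ball hrr1 hz)).1
    have h2 := (hr2b z (ball_subset_ball hrr2 hz)).2
    exact (h.an.differentiableAt (isOpen_ball.mem_nhds h2)).hasDerivAt.add h1.hasDerivAt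
  have hclose : ∀ z ∈ ball x r, ‖deriv (GG F ζ c K δ) z - deriv F x‖ ≤ N / 2 := by
    intro z hz
    rw [(hGd z hz).deriv]
    have h1 := (hS δ hδ (by linarith) z (ball_subset_ball hrr1 hz)).2
    have h2 := (hr2b z (ball_subset_ball hrr2 hz)).1
    calc _ = ‖(deriv F z - deriv F x) + deriv (fun z => ∑ q, c * kap F (ζ q) * bmp K δ (z / ζ q)) z‖ := by
          congr 1; ring
      _ ≤ _ := norm_add_le _ _
      _ ≤ N / 2 := by linarith
  constructor
  · intro a ha b hb hab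
    by_contra hne
    have h1 := Convex.norm_image_sub_le_of_norm_deriv_le (f := fun z => GG F ζ c K δ z - deriv F x * z)
      (C := N / 2) (s := ball x r) (x := b) (y := a)
      (fun z hz => (hGd z hz).differentiableAt.sub (differentiableAt_id.const_mul _))
      (fun z hz => by
        have : deriv (fun z => GG F ζ c K δ z - deriv F x * z) z = deriv (GG F ζ c K δ) z - deriv F x := by
          have := ((hGd z hz).sub ((hasDerivAt_id z).const_mul (deriv F x))).deriv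
          rw [mul_one] at this
          rw [(hGd z hz).deriv]
          exact this
        rw [this]; exact hclose z hz) (convex_ball _ _) hb.2 ha.2
    rw [hab] at h1
    have h2 : GG F ζ c K δ b - deriv F x * a - (GG F ζ c K δ b - deriv F x * b) = -(deriv F x * (a - b)) := by ring
    rw [h2, norm_neg, norm_mul, ← hN] at h1
    have h3 : 0 < ‖a - b‖ := norm_pos_iff.2 (sub_ne_zero.2 hne)
    nlinarith
  · intro z hz h0
    have h1 := hclose z hz.2
    rw [h0, zero_sub, norm_neg, ← hN] at h1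
    linarith

lemma loc_tip (h : Conf F ζ R c K) (q : ι) :
    ∃ r > 0, ∀ δ : ℝ, 0 < δ → δ < r → InjOn (GG F ζ c K δ) (closedBall 0 1 ∩ ball (ζ q) r) ∧
      ∀ z ∈ closedBall 0 1 ∩ ball (ζ q) r, deriv (GG F ζ c K δ) z ≠ 0 := by
  obtain ⟨r0, hr0, C, hC, hS⟩ := h.small q
  have hζ := h.unit q
  have hζ0 : ζ q ≠ 0 := by intro h0; rw [h0] at hζ; simp at hζ
  obtain ⟨r1, hr1, hpos⟩ := pos_near_tip h.hR h.an hζ (h.dne _ (h.mem q)) (h.conv q) (O := OO F ζ c K q)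
    hr0 hC (fun δ hδ hδr z hz => hS δ hδ hδr z (by rwa [mem_ball_iff_norm])) h.hc h.hK
  have hfun : ∀ δ, (fun z => F z + c * kap F (ζ q) * bmp K δ (z / ζ q) + OO F ζ c K q δ z) = GG F ζ c K δ := by
    intro δ; funext z; rw [GG_eq F ζ c K δ q z]; ring
  set r := min (r1 / 2) 1 with hr
  have hrp : 0 < r := lt_min (by linarith) one_pos
  have hrr : r ≤ r1 / 2 := min_le_left _ _
  have hrr' : r ≤ 1 := min_le_right _ _
  refine ⟨r, hrp, fun δ hδ hδr => ?_⟩
  have hδr1 : δ < r1 := by linarith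
  have hA : ∀ z ∈ closedBall 0 1 ∩ ball (ζ q) r, (1 + δ - z / ζ q) ∈ Wr r1 δ := by
    intro z hz
    have hz1 : ‖z / ζ q‖ ≤ 1 := by
      rw [norm_div, hζ, div_one]; simpa using hz.1
    have hz2 : ‖1 - z / ζ q‖ < r := by
      have h1 := hz.2
      rw [mem_ball_iff_norm, norm_sub_rev] at h1
      have h2 : (1 - z / ζ q) = (ζ q - z) / ζ q := by field_simp
      rw [h2, norm_div, hζ, div_one]; exact h1
    set a := 1 - z / ζ q with ha
    have e : (1 + (δ:ℂ) - z / ζ q) = δ + a := by rw [ha]; ring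
    rw [e]
    have hare : ‖a‖ ^ 2 / 2 ≤ a.re := by
      have h1 : z / ζ q = 1 - a := by rw [ha]; ring
      rw [h1] at hz1
      have h2 : ‖1 - a‖ ^ 2 ≤ 1 := by nlinarith [norm_nonneg (1 - a)]
      rw [Complex.sq_norm, Complex.normSq_apply] at h2 ⊢
      simp only [Complex.sub_re, Complex.one_re, Complex.sub_im, Complex.one_im] at h2
      nlinarith
    have hn : ‖(δ:ℂ) + a‖ ≤ δ + ‖a‖ := by
      have := norm_add_le (δ:ℂ) a
      rwa [Complex.norm_real, Real.norm_eq_abs, abs_of_pos hδ] at this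
    have ha0 := norm_nonneg a
    refine ⟨by linarith, ?_, ?_⟩
    · simp only [Complex.add_re, Complex.ofReal_re]; nlinarith
    · simp only [Complex.add_re, Complex.ofReal_re]
      have h3 : ‖(δ:ℂ) + a‖ ^ 2 ≤ (δ + ‖a‖) ^ 2 := pow_le_pow_left₀ (norm_nonneg _) hn 2
      have h4 : (δ + ‖a‖) ^ 2 ≤ 2 * (δ ^ 2 + ‖a‖ ^ 2) := by nlinarith [sq_nonneg (δ - ‖a‖)]
      have h5 : δ ^ 2 ≤ δ := by nlinarith
      nlinarith
  have hback : ∀ z, ζ q * (1 + δ - (1 + δ - z / ζ q)) = z := by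
    intro z; field_simp; ring
  have hp := hpos δ hδ hδr1
  rw [hfun δ] at hp
  constructor
  · intro z hz w hw hzw
    have h1 := inj_of_log (G := GG F ζ c K δ) (ζ := ζ q) (κ := kap F (ζ q)) hδ (fun A hA => (hp A hA).1)
      (fun A hA => (hp A hA).2) (hA z hz) (hA w hw) (by rw [hback, hback]; exact hzw)
    have h2 : z / ζ q = w / ζ q := by linear_combination -h1
    rwa [div_left_inj' hζ0] at h2
  · intro z hz h0
    have h1 := (hp _ (hA z hz)).2
    rw [hback, h0, mul_zero] at h1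
    simp at h1

lemma loc_all (h : Conf F ζ R c K) {x : ℂ} (hx : x ∈ closedBall (0:ℂ) 1) :
    ∃ r > 0, ∀ δ : ℝ, 0 < δ → δ < r → InjOn (GG F ζ c K δ) (closedBall 0 1 ∩ ball x r) ∧
      ∀ z ∈ closedBall 0 1 ∩ ball x r, deriv (GG F ζ c K δ) z ≠ 0 := by
  by_cases hnt : ∀ q, ζ q ≠ x
  · exact loc_nontip h hx hnt
  · push Not at hnt
    obtain ⟨q, rfl⟩ := hnt
    exact loc_tip h q

end
end Pool.Agent.H68.OW
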