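import Pool.Agent.H68.OW.OW7

set_option autoImplicit false
open Complex Filter Topology Set Metric

namespace Pool.Agent.H68.OW

noncomputable section

set_option linter.unusedSectionVars false
variable {ι : Type} [Fintype ι] [DecidableEq ι]
variable {F : ℂ → ℂ} {ζ : ι → ℂ} {R c K : ℝ}

lemma tendsto_bmp_joint {K : ℝ} {ω : ℂ} (h1 : ω.re < 1) {α : Type} {l : Filter α}
    {d : α → ℝ} {z : α → ℂ} (hd : Tendsto d l (𝓝 0)) (hz : Tendsto z l (𝓝 ω)) :
    Tendsto (fun n => bmp K (d n) (z n)) l (𝓝 0) := by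
  unfold bmp
  have c1 : Tendsto (fun n => Complex.log (((1 + d n + K * d n : ℝ) : ℂ) - z n)) l
      (𝓝 (Complex.log (((1 + 0 + K * 0 : ℝ) : ℂ) - ω))) := by
    apply Tendsto.clog
    · apply Tendsto.sub _ hz
      apply (Complex.continuous_ofReal.tendsto _).comp
      exact (hd.const_add 1).add (hd.const_mul K)
    · apply mem_slit_of_re_pos; simp; linarith
  have c2 : Tendsto (fun n => Complex.log (((1 + d n : ℝ) : ℂ) - z n)) l
      (𝓝 (Complex.log (((1 + 0 : ℝ) : ℂ) - ω))) := by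
    apply Tendsto.clog
    · apply Tendsto.sub _ hz
      apply (Complex.continuous_ofReal.tendsto _).comp
      exact hd.const_add 1
    · apply mem_slit_of_re_pos; simp; linarith
  have := (c1.sub c2).div_const ((Real.log (1 + K) : ℝ) : ℂ)
  simpa using this

lemma continuousAt_psi {K : ℝ} (hK : 0 < K) {s : ℂ} (hs : s ∈ closedBall (1/2 : ℂ) (1/2)) :
    ContinuousAt (psi K) s := by
  have h1 := one_add_re hK hs
  unfold psi
  apply ContinuousAt.div_const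
  apply ContinuousAt.clog
  · fun_prop
  · exact mem_slit_of_re_pos (by linarith)

lemma inv_mem_disk {A : ℂ} (hA : 1 ≤ A.re) : A⁻¹ ∈ closedBall (1/2 : ℂ) (1/2) := by
  have hA0 : A ≠ 0 := ne_of_re_pos (by linarith)
  rw [mem_closedBall, dist_eq_norm]
  have e : A⁻¹ - 1 / 2 = (2 - A) / (2 * A) := by field_simp
  rw [e, norm_div, norm_mul]
  have hn : 0 < ‖A‖ := norm_pos_iff.2 hA0
  have h2 : ‖(2:ℂ)‖ = 2 := by simp
  rw [h2, div_le_iff₀ (by positivity)]
  have h3 : ‖2 - A‖ ≤ ‖A‖ := by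
    have h4 : ‖2 - A‖ ^ 2 ≤ ‖A‖ ^ 2 := by
      rw [Complex.sq_norm, Complex.sq_norm, Complex.normSq_apply, Complex.normSq_apply]
      simp only [Complex.sub_re, Complex.sub_im, Complex.re_ofNat, Complex.im_ofNat]
      nlinarith
    exact (pow_le_pow_iff_left₀ (norm_nonneg _) (norm_nonneg _) two_ne_zero).1 h4
  linarith

lemma param_mem {δ : ℝ} (hδ : 0 < δ) {w : ℂ} (hw : w.re ≤ 1) :
    (δ : ℂ) / (((1 + δ : ℝ) : ℂ) - w) ∈ closedBall (1/2 : ℂ) (1/2) := by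
  have hδc : (δ : ℂ) ≠ 0 := by exact_mod_cast hδ.ne'
  have e : (δ : ℂ) / (((1 + δ : ℝ) : ℂ) - w) = ((((1 + δ : ℝ) : ℂ) - w) / δ)⁻¹ := by
    rw [inv_div]
  rw [e]
  apply inv_mem_disk
  rw [Complex.div_ofReal_re, le_div_iff₀ hδ]
  simp only [Complex.sub_re, Complex.ofReal_re]; linarith

lemma div_re_le {z ζ1 : ℂ} (hz : z ∈ closedBall (0:ℂ) 1) (hζ : ‖ζ1‖ = 1) : (z / ζ1).re ≤ 1 := by
  have h := Complex.re_le_norm (z / ζ1)
  rw [norm_div, hζ, div_one] at h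
  rw [mem_closedBall_zero_iff] at hz
  linarith

/-- limit values along sequences -/
lemma lim_val (h : Conf F ζ R c K) {δ : ℕ → ℝ} (hδ : ∀ n, 0 < δ n) (hδ0 : Tendsto δ atTop (𝓝 0))
    {x : ℕ → ℂ} (hx : ∀ n, x n ∈ closedBall (0:ℂ) 1) {x0 : ℂ} (hx0 : Tendsto x atTop (𝓝 x0)) :
    ∃ φ : ℕ → ℕ, StrictMono φ ∧ ∃ w, Tendsto (fun n => GG F ζ c K (δ (φ n)) (x (φ n))) atTop (𝓝 w) ∧
      (((∀ q, ζ q ≠ x0) ∧ w = F x0) ∨ ∃ q, ∃ s ∈ closedBall (1/2:ℂ) (1/2), x0 = ζ q ∧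
        w = F (ζ q) + c * kap F (ζ q) * psi K s ∧
        Tendsto (fun n => (δ (φ n) : ℂ) / (((1 + δ (φ n) : ℝ) : ℂ) - x (φ n) / ζ q)) atTop (𝓝 s)) := by
  have hx0m : x0 ∈ closedBall (0:ℂ) 1 := isClosed_closedBall.mem_of_tendsto hx0 (Eventually.of_forall hx)
  have hFc : Tendsto (fun n => F (x n)) atTop (𝓝 (F x0)) :=
    ((h.an.differentiableAt (isOpen_ball.mem_nhds (h.ball_mem hx0m))).continuousAt.tendsto).comp hx0
  have hz0 : ‖x0‖ ≤ 1 := by simpa using hx0m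
  have hne0 : ∀ q, ζ q ≠ 0 := by
    intro q h0
    have := h.unit q
    rw [h0] at this; simp at this
  have hother : ∀ q, ζ q ≠ x0 → Tendsto (fun n => c * kap F (ζ q) * bmp K (δ n) (x n / ζ q)) atTop (𝓝 0) := by
    intro q hq
    have h1 : Tendsto (fun n => bmp K (δ n) (x n / ζ q)) atTop (𝓝 0) := by
      apply tendsto_bmp_joint (ω := x0 / ζ q) _ hδ0 (hx0.div_const _)
      apply re_lt_one_of_ne
      · rw [norm_div, h.unit q, div_one]; exact hz0
      · intro h2; exact hq ((div_eq_one_iff_eq (hne0 q)).1 h2).symm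
    simpa using h1.const_mul (c * kap F (ζ q))
  by_cases hnt : ∀ q, ζ q ≠ x0
  · refine ⟨id, strictMono_id, F x0, ?_, Or.inl ⟨hnt, rfl⟩⟩
    simp only [id, GG]
    have h1 : Tendsto (fun n => ∑ q, c * kap F (ζ q) * bmp K (δ n) (x n / ζ q)) atTop (𝓝 (∑ q : ι, (0:ℂ))) :=
      tendsto_finsetSum _ (fun q _ => hother q (hnt q))
    simpa using hFc.add h1
  · push Not at hnt
    obtain ⟨q, hq⟩ := hnt
    set S : ℕ → ℂ := fun n => (δ n : ℂ) / (((1 + δ n : ℝ) : ℂ) - x n / ζ q) with hS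
    have hSm : ∀ n, S n ∈ closedBall (1/2:ℂ) (1/2) := fun n => param_mem (hδ n) (div_re_le (hx n) (h.unit q))
    obtain ⟨s, hs, φ, hφ, hφs⟩ := (isCompact_closedBall (1/2:ℂ) (1/2)).tendsto_subseq hSm
    refine ⟨φ, hφ, F (ζ q) + c * kap F (ζ q) * psi K s, ?_, Or.inr ⟨q, s, hs, hq.symm, rfl, hφs⟩⟩
    have hb : ∀ n, bmp K (δ (φ n)) (x (φ n) / ζ q) = psi K (S (φ n)) := by
      intro n
      apply bmp_eq_psi h.hK (hδ _)
      have := div_re_le (hx (φ n)) (h.unit q)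
      linarith [hδ (φ n)]
    have h1 : Tendsto (fun n => ∑ q' ∈ Finset.univ.erase q, c * kap F (ζ q') * bmp K (δ n) (x n / ζ q'))
        atTop (𝓝 (∑ q' ∈ Finset.univ.erase q, (0:ℂ))) :=
      tendsto_finsetSum _ (fun q' hq' => hother q' (by
        intro h2
        rw [← hq] at h2
        exact Finset.ne_of_mem_erase hq' (h.zinj h2)))
    rw [Finset.sum_const_zero] at h1
    have h2 := ((hFc.add h1).comp hφ.tendsto_atTop)
    have h3 : Tendsto (fun n => c * kap F (ζ q) * psi K (S (φ n))) atTop (𝓝 (c * kap F (ζ q) * psi K s)) :=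
      ((continuousAt_psi h.hK hs).tendsto.comp hφs).const_mul _
    have h4 := h2.add h3
    rw [add_zero, ← hq] at h4
    refine h4.congr ?_
    intro n
    simp only [Function.comp]
    rw [GG_eq F ζ c K (δ (φ n)) q (x (φ n)), hb n]
    rfl

/-- eventual injectivity -/
lemma inj_eventually (h : Conf F ζ R c K) :
    ∀ᶠ δ in 𝓝[>] (0:ℝ), InjOn (GG F ζ c K δ) (closedBall 0 1) := by
  by_contra hcon
  rw [Filter.not_eventually] at hcon
  have hpos : ∀ᶠ δ in 𝓝[>] (0:ℝ), 0 < δ := eventually_mem_nhdsWithin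
  obtain ⟨δ, hδl, hδ⟩ := Filter.exists_seq_forall_of_frequently (hcon.and_eventually hpos)
  have hδ0 : Tendsto δ atTop (𝓝 0) := hδl.mono_right nhdsWithin_le_nhds
  have hδp : ∀ n, 0 < δ n := fun n => (hδ n).2
  have hbad : ∀ n, ∃ p : ℂ × ℂ, p.1 ∈ closedBall (0:ℂ) 1 ∧ p.2 ∈ closedBall (0:ℂ) 1 ∧
      GG F ζ c K (δ n) p.1 = GG F ζ c K (δ n) p.2 ∧ p.1 ≠ p.2 := by
    intro n
    have h1 := (hδ n).1
    unfold InjOn at h1
    push Not at h1
    obtain ⟨a, ha, b, hb, hab, hne⟩ := h1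
    exact ⟨(a, b), ha, hb, hab, hne⟩
  choose p hp1 hp2 hp3 hp4 using hbad
  obtain ⟨p0, -, φ, hφ, hφp⟩ := ((isCompact_closedBall (0:ℂ) 1).prod (isCompact_closedBall (0:ℂ) 1)).tendsto_subseq
    (x := p) (fun n => ⟨hp1 n, hp2 n⟩)
  have hx : Tendsto (fun n => (p (φ n)).1) atTop (𝓝 p0.1) := (continuous_fst.tendsto _).comp hφp
  have hy : Tendsto (fun n => (p (φ n)).2) atTop (𝓝 p0.2) := (continuous_snd.tendsto _).comp hφp
  have hd1 : Tendsto (fun n => δ (φ n)) atTop (𝓝 0) := hδ0.comp hφ.tendsto_atTop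
  obtain ⟨ψ, hψ, w, hw, hwc⟩ := lim_val h (δ := fun n => δ (φ n)) (fun n => hδp _) hd1
    (x := fun n => (p (φ n)).1) (fun n => hp1 _) hx
  obtain ⟨θ, hθ, w', hw', hwc'⟩ := lim_val h (δ := fun n => δ (φ (ψ n))) (fun n => hδp _)
    (hd1.comp hψ.tendsto_atTop) (x := fun n => (p (φ (ψ n))).2) (fun n => hp2 _) (hy.comp hψ.tendsto_atTop)
  have hww : w = w' := by
    have h1 := hw.comp hθ.tendsto_atTop
    refine tendsto_nhds_unique h1 (hw'.congr ?_)
    intro n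
    exact (hp3 _).symm
  have hxy : p0.1 = p0.2 := by
    have m1 : p0.1 ∈ closedBall (0:ℂ) 1 := isClosed_closedBall.mem_of_tendsto hx (Eventually.of_forall fun n => hp1 _)
    have m2 : p0.2 ∈ closedBall (0:ℂ) 1 := isClosed_closedBall.mem_of_tendsto hy (Eventually.of_forall fun n => hp2 _)
    rcases hwc with ⟨hn, hv⟩ | ⟨q, s, hs, hq, hv, -⟩ <;> rcases hwc' with ⟨hn', hv'⟩ | ⟨q', s', hs', hq', hv', -⟩
    · exact h.inj m1 m2 (by rw [← hv, ← hv', hww])
    · exfalso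
      exact hn q' (h.cig1 _ m1 q' s' hs' (by rw [← hv, ← hv', hww])).symm
    · exfalso
      exact hn' q (h.cig1 _ m2 q s hs (by rw [← hv, ← hv', hww])).symm
    · have : q = q' := h.cig2 q q' s hs s' hs' (by rw [← hv, ← hv', hww])
      rw [hq, hq', this]
  have m1 : p0.1 ∈ closedBall (0:ℂ) 1 := isClosed_closedBall.mem_of_tendsto hx (Eventually.of_forall fun n => hp1 _)
  obtain ⟨r, hr, hloc⟩ := loc_all h m1
  have e1 : ∀ᶠ n in atTop, (p (φ n)).1 ∈ ball p0.1 r := hx.eventually (isOpen_ball.mem_nhds (mem_ball_self hr))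
  have e2 : ∀ᶠ n in atTop, (p (φ n)).2 ∈ ball p0.1 r := by
    rw [← hxy] at hy
    exact hy.eventually (isOpen_ball.mem_nhds (mem_ball_self hr))
  have e3 : ∀ᶠ n in atTop, δ (φ n) < r := hd1.eventually (gt_mem_nhds hr)
  obtain ⟨n, h1, h2, h3⟩ := (e1.and (e2.and e3)).exists
  exact hp4 _ ((hloc _ (hδp _) h3).1 ⟨hp1 _, h1⟩ ⟨hp2 _, h2⟩ (hp3 _))

/-- eventual nonvanishing derivative -/
lemma dne_eventually (h : Conf F ζ R c K) :
    ∀ᶠ δ in 𝓝[>] (0:ℝ), ∀ z ∈ closedBall (0:ℂ) 1, deriv (GG F ζ c K δ) z ≠ 0 := by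
  by_contra hcon
  rw [Filter.not_eventually] at hcon
  have hpos : ∀ᶠ δ in 𝓝[>] (0:ℝ), 0 < δ := eventually_mem_nhdsWithin
  obtain ⟨δ, hδl, hδ⟩ := Filter.exists_seq_forall_of_frequently (hcon.and_eventually hpos)
  have hδ0 : Tendsto δ atTop (𝓝 0) := hδl.mono_right nhdsWithin_le_nhds
  have hδp : ∀ n, 0 < δ n := fun n => (hδ n).2
  have hbad : ∀ n, ∃ p : ℂ, p ∈ closedBall (0:ℂ) 1 ∧ deriv (GG F ζ c K (δ n)) p = 0 := by
    intro n
    have h1 := (hδ n).1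
    push Not at h1
    exact h1
  choose p hp1 hp2 using hbad
  obtain ⟨p0, hp0, φ, hφ, hφp⟩ := (isCompact_closedBall (0:ℂ) 1).tendsto_subseq (x := p) hp1
  have hd1 : Tendsto (fun n => δ (φ n)) atTop (𝓝 0) := hδ0.comp hφ.tendsto_atTop
  obtain ⟨r, hr, hloc⟩ := loc_all h hp0
  have e1 : ∀ᶠ n in atTop, p (φ n) ∈ ball p0 r := hφp.eventually (isOpen_ball.mem_nhds (mem_ball_self hr))
  have e3 : ∀ᶠ n in atTop, δ (φ n) < r := hd1.eventually (gt_mem_nhds hr)
  obtain ⟨n, h1, h3⟩ := (e1.and e3).exists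
  exact (hloc _ (hδp _) h3).2 _ ⟨hp1 _, h1⟩ (hp2 _)

/-- tip data -/
lemma Conf.tipData (h : Conf F ζ R c K) (q : ι) :
    ∃ r0 C, TipData (fun δ z => F z + OO F ζ c K q δ z) (ζ q) r0 C := by
  obtain ⟨r, hr, C, hC, hS⟩ := h.small q
  have hζR : ball (0:ℂ) R ∈ 𝓝 (ζ q) := isOpen_ball.mem_nhds (h.ball_mem (h.mem q))
  have hF1 : DifferentiableOn ℂ (deriv F) (ball 0 R) := h.an.deriv isOpen_ball
  have hF2 : DifferentiableOn ℂ (deriv (deriv F)) (ball 0 R) := hF1.deriv isOpen_ball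
  have c1 : ContinuousAt (deriv F) (ζ q) := (hF1.differentiableAt hζR).continuousAt
  have c2 : ContinuousAt (deriv (deriv F)) (ζ q) := (hF2.differentiableAt hζR).continuousAt
  set N1 := ‖deriv F (ζ q)‖ + 1 with hN1
  set N2 := ‖deriv (deriv F) (ζ q)‖ + 1 with hN2
  have hev : ∀ᶠ z in 𝓝 (ζ q), ‖deriv F z‖ < N1 ∧ ‖deriv (deriv F) z‖ < N2 ∧ z ∈ ball (0:ℂ) R := by
    filter_upwards [c1.norm.eventually (gt_mem_nhds (show ‖deriv F (ζ q)‖ < N1 by linarith)),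
      c2.norm.eventually (gt_mem_nhds (show ‖deriv (deriv F) (ζ q)‖ < N2 by linarith)), hζR] with z h1 h2 h3
    exact ⟨h1, h2, h3⟩
  obtain ⟨r2, hr2, hr2b⟩ := Metric.eventually_nhds_iff_ball.1 hev
  set r0 := min (r / 2) r2 with hr0
  have hr0p : 0 < r0 := lt_min (by linarith) hr2
  have hr0a : r0 ≤ r / 2 := min_le_left _ _
  have hr0b : r0 ≤ r2 := min_le_right _ _
  have dF : ∀ z ∈ ball (ζ q) r0, DifferentiableAt ℂ F z := fun z hz =>
    h.an.differentiableAt (isOpen_ball.mem_nhds (hr2b z (ball_subset_ball hr0b hz)).2.2)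
  have dO : ∀ δ : ℝ, 0 < δ → δ < r → DifferentiableOn ℂ (OO F ζ c K q δ) (ball (ζ q) r) := fun δ h1 h2 z hz =>
    (hS δ h1 h2 z hz).1.differentiableWithinAt
  have hderiv : ∀ δ : ℝ, 0 < δ → δ < r → ∀ z ∈ ball (ζ q) r0,
      deriv (fun z => F z + OO F ζ c K q δ z) z = deriv F z + deriv (OO F ζ c K q δ) z := by
    intro δ h1 h2 z hz
    exact deriv_add (dF z hz) (hS δ h1 h2 z (ball_subset_ball (by linarith) hz)).1
  refine ⟨r0, N1 + N2 + C * r + C * r / (r / 4), hr0p, by positivity, ?_, ?_, ?_⟩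
  · intro δ h1 h2 z hz
    apply DifferentiableAt.differentiableWithinAt
    exact (dF z hz).add (hS δ h1 (by linarith) z (ball_subset_ball (by linarith) hz)).1
  · intro δ h1 h2 z hz
    rw [hderiv δ h1 (by linarith) z hz]
    have e1 := (hS δ h1 (by linarith) z (ball_subset_ball (by linarith) hz)).2
    have e2 := (hr2b z (ball_subset_ball hr0b hz)).1
    have e3 : C * δ ≤ C * r := mul_le_mul_of_nonneg_left (by linarith) hC
    have e4 : 0 ≤ C * r / (r / 4) := by positivity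
    have e5 : 0 ≤ N2 := by positivity
    calc _ ≤ ‖deriv F z‖ + ‖deriv (OO F ζ c K q δ) z‖ := norm_add_le _ _
      _ ≤ _ := by linarith
  · intro δ h1 h2 z hz
    have hδr : δ < r := by linarith
    have hev2 : deriv (fun z => F z + OO F ζ c K q δ z) =ᶠ[𝓝 z] fun z => deriv F z + deriv (OO F ζ c K q δ) z := by
      filter_upwards [isOpen_ball.mem_nhds hz] with w hw
      exact hderiv δ h1 hδr w hw
    have dO1 : DifferentiableOn ℂ (deriv (OO F ζ c K q δ)) (ball (ζ q) r) := (dO δ h1 hδr).deriv isOpen_ball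
    have hzr : z ∈ ball (ζ q) r := ball_subset_ball (by linarith) hz
    have a1 : DifferentiableAt ℂ (deriv (OO F ζ c K q δ)) z := dO1.differentiableAt (isOpen_ball.mem_nhds hzr)
    have a2 : DifferentiableAt ℂ (deriv F) z :=
      hF1.differentiableAt (isOpen_ball.mem_nhds (hr2b z (ball_subset_ball hr0b hz)).2.2)
    rw [hev2.deriv_eq]
    have e0 : deriv (fun z => deriv F z + deriv (OO F ζ c K q δ) z) z
        = deriv (deriv F) z + deriv (deriv (OO F ζ c K q δ)) z := deriv_add a2 a1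
    rw [e0]
    have hsub : closedBall z (r / 4) ⊆ ball (ζ q) r := by
      intro w hw
      rw [mem_closedBall] at hw
      rw [mem_ball] at hz ⊢
      have := dist_triangle w z (ζ q)
      linarith
    have e1 : ‖deriv (deriv (OO F ζ c K q δ)) z‖ ≤ C * r / (r / 4) := by
      apply Complex.norm_deriv_le_of_forall_mem_sphere_norm_le (by linarith)
      · apply DifferentiableOn.diffContOnCl
        rw [closure_ball _ (by linarith : r / 4 ≠ 0)]
        exact dO1.mono hsub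
      · intro w hw
        have h5 := (hS δ h1 hδr w (hsub (sphere_subset_closedBall hw))).2
        have e3 : C * δ ≤ C * r := mul_le_mul_of_nonneg_left (by linarith) hC
        linarith
    have e2 := (hr2b z (ball_subset_ball hr0b hz)).2.1
    have e5 : 0 ≤ N1 := by positivity
    have e6 : 0 ≤ C * r := by positivity
    calc _ ≤ ‖deriv (deriv F) z‖ + ‖deriv (deriv (OO F ζ c K q δ)) z‖ := norm_add_le _ _
      _ ≤ _ := by linarith

lemma Conf.kap1 (h : Conf F ζ R c K) (q : ι) : ‖kap F (ζ q)‖ = 1 :=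
  norm_kap (h.unit q) (h.dne _ (h.mem q))

lemma GG_eq2 (q : ι) : ∀ δ z, GG F ζ c K δ z = (fun δ z => F z + OO F ζ c K q δ z) δ z
    + c * kap F (ζ q) * bmp K δ (z / ζ q) := fun δ z => GG_eq F ζ c K δ q z

/-- the position of the new tips -/
lemma tendsto_pos (h : Conf F ζ R c K) (q : ι) {σ : ℝ} (hσ : σ = 1 ∨ σ = -1) :
    Tendsto (fun δ : ℝ => GG F ζ c K δ (tipz K (ζ q) σ δ)) (𝓝[>] 0)
      (𝓝 (F (ζ q) + c * kap F (ζ q) * (1 / 2 - (σ * wK K : ℝ) * I))) := by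
  have hpos : ∀ᶠ δ in 𝓝[>] (0:ℝ), 0 < δ := eventually_mem_nhdsWithin
  have hne0 : ∀ q, ζ q ≠ 0 := by
    intro q h0
    have := h.unit q
    rw [h0] at this; simp at this
  have hδ0 : Tendsto (fun δ : ℝ => δ) (𝓝[>] 0) (𝓝 0) := nhdsWithin_le_nhds
  have htz := tendsto_tipz K σ (ζ q)
  have hFc : Tendsto (fun δ => F (tipz K (ζ q) σ δ)) (𝓝[>] 0) (𝓝 (F (ζ q))) :=
    ((h.an.differentiableAt (isOpen_ball.mem_nhds (h.ball_mem (h.mem q)))).continuousAt.tendsto).comp htz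
  have h1 : Tendsto (fun δ => OO F ζ c K q δ (tipz K (ζ q) σ δ)) (𝓝[>] 0)
      (𝓝 (∑ q' ∈ Finset.univ.erase q, (0:ℂ))) := by
    unfold OO
    apply tendsto_finsetSum
    intro q' hq'
    have h1 : Tendsto (fun δ => bmp K δ (tipz K (ζ q) σ δ / ζ q')) (𝓝[>] 0) (𝓝 0) := by
      apply tendsto_bmp_joint (ω := ζ q / ζ q') _ hδ0 (htz.div_const _)
      apply re_lt_one_of_ne
      · rw [norm_div, h.unit q, h.unit q', div_one]
      · intro h2; exact Finset.ne_of_mem_erase hq' (h.zinj ((div_eq_one_iff_eq (hne0 q')).1 h2).symm)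
    simpa using h1.const_mul (c * kap F (ζ q'))
  rw [Finset.sum_const_zero] at h1
  have hpsi : psi K (sS K σ) = 1 / 2 - (σ * wK K : ℝ) * I := by
    apply Complex.ext
    · rw [psi_sS_re h.hK hσ]; simp
    · rw [psi_sS_im h.hK hσ]; simp
  have h2 : Tendsto (fun δ : ℝ => psi K ((δ : ℂ) / (((1 + δ : ℝ) : ℂ) - tipz K (ζ q) σ δ / ζ q))) (𝓝[>] 0)
      (𝓝 (psi K (sS K σ))) := by
    refine (continuousAt_psi h.hK sS_mem).tendsto.comp ?_
    have h3 := ((tendsto_up K σ).const_add 1).inv₀ (by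
      have : (1 + uu K σ) = (sS K σ)⁻¹ := by rw [sS_inv]; rfl
      rw [this]
      apply inv_ne_zero
      unfold sS
      apply div_ne_zero one_ne_zero one_add_sigma_ne)
    have e1 : (1 + uu K σ)⁻¹ = sS K σ := by
      have : (1 + uu K σ) = (sS K σ)⁻¹ := by rw [sS_inv]; rfl
      rw [this, inv_inv]
    rw [e1] at h3
    refine h3.congr' ?_
    filter_upwards [hpos] with δ hδ
    have hδc : (δ : ℂ) ≠ 0 := by exact_mod_cast hδ.ne'
    rw [← tipz_div (K := K) (σ := σ) (δ := δ) (h.unit q)]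
    have e2 : 1 + (1 - tipz K (ζ q) σ δ / ζ q) / (δ:ℂ) = ((((1 + δ : ℝ) : ℂ) - tipz K (ζ q) σ δ / ζ q)) / δ := by
      push_cast; field_simp; ring
    rw [e2, inv_div]
  rw [← hpsi]
  have h4 := (hFc.add h1).add (h2.const_mul (c * kap F (ζ q)))
  rw [add_zero] at h4
  refine h4.congr' ?_
  filter_upwards [hpos] with δ hδ
  rw [GG_eq F ζ c K δ q, bmp_eq_psi h.hK hδ]
  have := tipz_div_re (K := K) (σ := σ) (δ := δ) (h.unit q)
  linarith

end
end Pool.Agent.H68.OW
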